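import Pool.Agent.Helper819.FEU.Defs

set_option autoImplicit false
set_option linter.unusedVariables false
set_option linter.unusedSectionVars false
set_option linter.dupNamespace false

open MeasureTheory Filter Topology ProbabilityTheory
open scoped InnerProductSpace ENNReal

namespace Pool.Agent.Helper38.FE.U

-- BEGIN TARGET (everything above is GIVEN, keep it unchanged; prove the theorem below; auxiliary lemmas go inside this namespace, before it)
namespace Hm_crd

theorem ent_clm {N : ℕ} (M : Matrix (Fin N) (Fin N) ℂ) (p q : Fin N) :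
    ent (Matrix.toEuclideanCLM (n := Fin N) (𝕜 := ℂ) M) p q = M p q := by
  show (M.mulVec (WithLp.ofLp (EuclideanSpace.single q (1:ℂ)))) p = M p q
  have : WithLp.ofLp (EuclideanSpace.single q (1:ℂ)) = Pi.single q 1 := by
    ext i; simp [Pi.single_apply]
  rw [this, Matrix.mulVec_single_one]
  rfl

theorem ent_ext {N : ℕ} {S T : BN N} (h : ∀ p q, ent S p q = ent T p q) : S = T := by
  apply ContinuousLinearMap.coe_injective
  refine (EuclideanSpace.basisFun (Fin N) ℂ).toBasis.ext fun q => ?_
  ext p
  have := h p q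
  simpa [ent] using this

theorem ent_conj {N : ℕ} {T : BN N} (hT : IsSelfAdjoint T) (p q : Fin N) :
    ent T q p = (starRingEnd ℂ) (ent T p q) := by
  have h1 := hT.isSymmetric (EuclideanSpace.single q (1:ℂ)) (EuclideanSpace.single p (1:ℂ))
  simp only [ContinuousLinearMap.coe_coe] at h1
  rw [EuclideanSpace.inner_single_left, EuclideanSpace.inner_single_right] at h1
  simp only [map_one, one_mul] at h1
  exact h1.symm

/-- `Hm` and `crd` are inverse to each other -/
theorem Hm_crd (N : ℕ) (hN : 0 < N) : (∀ T : BN N, IsSelfAdjoint T → Hm N (crd T) = T) ∧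
    (∀ a : EuclideanSpace ℝ (Fin N × Fin N), crd (Hm N a) = a) := by
  have hs : (0:ℝ) < √(N : ℝ) := Real.sqrt_pos.2 (by exact_mod_cast hN)
  have hsq : √(N : ℝ) ^ 2 = N := Real.sq_sqrt (Nat.cast_nonneg N)
  constructor
  · intro T hT
    refine ent_ext fun p q => ?_
    have h1 := ent_conj hT p q
    rw [Hm, ent_clm, Matrix.of_apply]
    have e1 : (crd T) (p, q) = √(N : ℝ) * ((ent T p q).re + (ent T p q).im) := rfl
    have e2 : (crd T) (q, p) = √(N : ℝ) * ((ent T p q).re - (ent T p q).im) := by
      have : (crd T) (q, p) = √(N : ℝ) * ((ent T q p).re + (ent T q p).im) := rfl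
      rw [this, h1]; simp [sub_eq_add_neg]
    rw [e1, e2]
    apply Complex.ext
    · simp
      field_simp
      ring_nf
      rw [hsq]
      ring
    · simp
      field_simp
      ring_nf
      rw [hsq]
      ring
  · intro a
    ext ⟨p, q⟩
    have e1 : (crd (Hm N a)) (p, q) = √(N : ℝ) * ((ent (Hm N a) p q).re + (ent (Hm N a) p q).im) := rfl
    rw [e1, Hm, ent_clm, Matrix.of_apply]
    simp
    field_simp
    ring_nf
    rw [hsq]
    ring

end Hm_crd

alias Hm_crd := Hm_crd.Hm_crd

end Pool.Agent.Helper38.FE.U
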