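import Pool.Agent.Helper819.FEU.Defs

set_option autoImplicit false
set_option linter.unusedVariables false
set_option linter.unusedSectionVars false
set_option linter.dupNamespace false

open MeasureTheory Filter Topology ProbabilityTheory
open scoped InnerProductSpace ENNReal

namespace Pool.Agent.Helper38.FE.U

-- BEGIN TARGET (everything above is GIVEN, keep it unchanged; prove the theorem below; auxiliary lemmas go inside this namespace, before it)
namespace Hm_sa

/-- `Hm N a` is self-adjoint and real linear in `a` -/
theorem Hm_sa (N : ℕ) : (∀ a, IsSelfAdjoint (Hm N a)) ∧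
    (∀ a b, Hm N (a + b) = Hm N a + Hm N b) ∧
    (∀ (c : ℝ) a, Hm N (c • a) = ((c : ℝ) : ℂ) • Hm N a) ∧ Continuous (Hm N) := by
  have h1 : ∀ a b, Hm N (a + b) = Hm N a + Hm N b := by
    intro a b
    unfold Hm
    rw [← map_add]
    congr 1
    ext p q
    simp only [Matrix.of_apply, Matrix.add_apply, PiLp.add_apply]
    push_cast
    ring
  have h2 : ∀ (c : ℝ) a, Hm N (c • a) = ((c : ℝ) : ℂ) • Hm N a := by
    intro c a
    unfold Hm
    rw [← map_smul]
    congr 1
    ext p q
    simp only [Matrix.of_apply, Matrix.smul_apply, PiLp.smul_apply, smul_eq_mul]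
    push_cast
    ring
  refine ⟨?_, h1, h2, ?_⟩
  · intro a
    unfold Hm
    refine IsSelfAdjoint.map ?_ (Matrix.toEuclideanCLM (n := Fin N) (𝕜 := ℂ))
    show star _ = _
    ext p q
    rw [Matrix.star_apply]
    simp only [Matrix.of_apply, star_mul', star_add, Complex.star_def, map_div₀, map_add, map_sub,
      map_one, Complex.conj_I, Complex.conj_ofReal, map_ofNat]
    ring
  · let L : EuclideanSpace ℝ (Fin N × Fin N) →ₗ[ℝ] BN N :=
      { toFun := Hm N
        map_add' := h1
        map_smul' := by
          intro c a
          rw [h2]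
          rfl }
    exact L.continuous_of_finiteDimensional

end Hm_sa

alias Hm_sa := Hm_sa.Hm_sa

end Pool.Agent.Helper38.FE.U
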