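import Pool.Agent.Helper819.FEU.Defs

set_option autoImplicit false
set_option linter.unusedVariables false
set_option linter.unusedSectionVars false
set_option linter.dupNamespace false

open MeasureTheory Filter Topology ProbabilityTheory
open scoped InnerProductSpace ENNReal

namespace Pool.Agent.Helper38.FE.U

-- BEGIN TARGET (everything above is GIVEN, keep it unchanged; prove the theorem below; auxiliary lemmas go inside this namespace, before it)
namespace inner_crd

theorem aux_expand {N : ℕ} (v : EuclideanSpace ℂ (Fin N)) :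
    v = ∑ q, v q • (EuclideanSpace.single q (1 : ℂ) : EuclideanSpace ℂ (Fin N)) := by
  ext i
  rw [WithLp.ofLp_sum, Finset.sum_apply]
  simp only [PiLp.smul_apply, smul_eq_mul, EuclideanSpace.single_apply]
  simp

theorem aux_ent_conj {N : ℕ} {T : BN N} (hT : IsSelfAdjoint T) (p q : Fin N) :
    ent T q p = (starRingEnd ℂ) (ent T p q) := by
  unfold ent
  have h1 : (T (EuclideanSpace.single p 1)) q =
      ⟪(EuclideanSpace.single q (1 : ℂ) : EuclideanSpace ℂ (Fin N)), T (EuclideanSpace.single p 1)⟫_ℂ := by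
    rw [EuclideanSpace.inner_single_left]
    simp
  have h2 : (T (EuclideanSpace.single q 1)) p =
      ⟪(EuclideanSpace.single p (1 : ℂ) : EuclideanSpace ℂ (Fin N)), T (EuclideanSpace.single q 1)⟫_ℂ := by
    rw [EuclideanSpace.inner_single_left]
    simp
  have h3 : ⟪T (EuclideanSpace.single q 1), (EuclideanSpace.single p (1 : ℂ) : EuclideanSpace ℂ (Fin N))⟫_ℂ =
      ⟪(EuclideanSpace.single q (1 : ℂ) : EuclideanSpace ℂ (Fin N)), T (EuclideanSpace.single p 1)⟫_ℂ :=
    hT.isSymmetric _ _
  rw [h1, h2, ← h3, inner_conj_symm]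

theorem aux_ent_mul {N : ℕ} (A B : BN N) (p : Fin N) :
    ent (A * B) p p = ∑ q, ent A p q * ent B q p := by
  unfold ent
  show (A (B (EuclideanSpace.single p 1))) p = _
  conv_lhs => rw [aux_expand (B (EuclideanSpace.single p 1))]
  rw [map_sum, WithLp.ofLp_sum, Finset.sum_apply]
  apply Finset.sum_congr rfl
  intro q _
  rw [map_smul, PiLp.smul_apply, smul_eq_mul, mul_comm]

/-- the coordinate inner product is the trace inner product -/
theorem inner_crd (N : ℕ) (A B : BN N) (hA : IsSelfAdjoint A) (hB : IsSelfAdjoint B) :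
    ⟪crd A, crd B⟫_ℝ = (N : ℝ) ^ 2 * (tr (A * B)).re := by
  have hL : ⟪crd A, crd B⟫_ℝ = ∑ p : Fin N, ∑ q : Fin N,
      (N : ℝ) * (((ent A p q).re + (ent A p q).im) * ((ent B p q).re + (ent B p q).im)) := by
    rw [PiLp.inner_apply, Fintype.sum_prod_type]
    apply Finset.sum_congr rfl
    intro p _
    apply Finset.sum_congr rfl
    intro q _
    have e1 : (crd A) (p, q) = √(N : ℝ) * ((ent A p q).re + (ent A p q).im) := rfl
    have e2 : (crd B) (p, q) = √(N : ℝ) * ((ent B p q).re + (ent B p q).im) := rfl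
    rw [e1, e2]
    have e3 : √(N : ℝ) * √(N : ℝ) = N := Real.mul_self_sqrt (Nat.cast_nonneg N)
    have e4 : ∀ a b : ℝ, ⟪a, b⟫_ℝ = a * b := by
      intro a b
      simp [mul_comm]
    rw [e4]
    calc √(N : ℝ) * ((ent A p q).re + (ent A p q).im) * (√(N : ℝ) * ((ent B p q).re + (ent B p q).im)) =
        (√(N : ℝ) * √(N : ℝ)) * (((ent A p q).re + (ent A p q).im) * ((ent B p q).re + (ent B p q).im)) := by
          ring
      _ = _ := by rw [e3]
  have hswap : ∑ p : Fin N, ∑ q : Fin N, ((ent A p q).re * (ent B p q).im + (ent A p q).im * (ent B p q).re) = 0 := by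
    have h1 : ∑ p : Fin N, ∑ q : Fin N, ((ent A p q).re * (ent B p q).im + (ent A p q).im * (ent B p q).re) =
        -∑ p : Fin N, ∑ q : Fin N, ((ent A p q).re * (ent B p q).im + (ent A p q).im * (ent B p q).re) := by
      conv_lhs => rw [Finset.sum_comm]
      rw [← Finset.sum_neg_distrib]
      apply Finset.sum_congr rfl
      intro p _
      rw [← Finset.sum_neg_distrib]
      apply Finset.sum_congr rfl
      intro q _
      rw [aux_ent_conj hA p q, aux_ent_conj hB p q, Complex.conj_re, Complex.conj_im, Complex.conj_re,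
        Complex.conj_im]
      ring
    linarith
  have hS : (∑ p : Fin N, ent (A * B) p p).re =
      ∑ p : Fin N, ∑ q : Fin N, ((ent A p q).re * (ent B p q).re + (ent A p q).im * (ent B p q).im) := by
    rw [Complex.re_sum]
    apply Finset.sum_congr rfl
    intro p _
    rw [aux_ent_mul, Complex.re_sum]
    apply Finset.sum_congr rfl
    intro q _
    rw [aux_ent_conj hB p q, Complex.mul_re, Complex.conj_re, Complex.conj_im]
    ring
  have hL2 : ⟪crd A, crd B⟫_ℝ = (N : ℝ) * (∑ p : Fin N, ent (A * B) p p).re := by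
    rw [hL, hS]
    have h1 : ∑ p : Fin N, ∑ q : Fin N,
        (N : ℝ) * (((ent A p q).re + (ent A p q).im) * ((ent B p q).re + (ent B p q).im)) =
        (N : ℝ) * (∑ p : Fin N, ∑ q : Fin N, ((ent A p q).re * (ent B p q).re + (ent A p q).im * (ent B p q).im))
        + (N : ℝ) * (∑ p : Fin N, ∑ q : Fin N, ((ent A p q).re * (ent B p q).im + (ent A p q).im * (ent B p q).re)) := by
      simp only [Finset.mul_sum, ← Finset.sum_add_distrib]
      apply Finset.sum_congr rfl
      intro p _
      apply Finset.sum_congr rfl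
      intro q _
      ring
    rw [h1, hswap, mul_zero, add_zero]
  rw [hL2]
  unfold tr
  rcases Nat.eq_zero_or_pos N with h | h
  · subst h
    simp
  · have hN : (N : ℝ) ≠ 0 := by positivity
    have h1 : (1 / (N : ℂ)) = ((1 / (N : ℝ) : ℝ) : ℂ) := by push_cast; rfl
    rw [h1, Complex.re_ofReal_mul]
    field_simp


end inner_crd

alias inner_crd := inner_crd.inner_crd

end Pool.Agent.Helper38.FE.U
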