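import Pool.Agent.Helper819.FEU.Defs

set_option autoImplicit false
set_option linter.unusedVariables false
set_option linter.unusedSectionVars false
set_option linter.dupNamespace false

open MeasureTheory Filter Topology ProbabilityTheory
open scoped InnerProductSpace ENNReal

namespace Pool.Agent.Helper38.FE.U

-- BEGIN TARGET (everything above is GIVEN, keep it unchanged; prove the theorem below; auxiliary lemmas go inside this namespace, before it)
namespace tr_facts

/-- the normalised trace is linear and contractive -/
theorem tr_facts (N : ℕ) : (∀ A B : BN N, tr (A + B) = tr A + tr B) ∧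
    (∀ (c : ℂ) (A : BN N), tr (c • A) = c * tr A) ∧ (∀ A : BN N, ‖tr A‖ ≤ ‖A‖) ∧
    Continuous (fun A : BN N => tr A) := by
  have hadd : ∀ A B : BN N, tr (A + B) = tr A + tr B := by
    intro A B
    unfold tr
    rw [← mul_add, ← Finset.sum_add_distrib]
    congr 1
  have hsmul : ∀ (c : ℂ) (A : BN N), tr (c • A) = c * tr A := by
    intro c A
    have e : ∑ p, ent (c • A) p p = c * ∑ p, ent A p p := by
      rw [Finset.mul_sum]
      rfl
    unfold tr
    rw [e, mul_left_comm]
  have hle : ∀ A : BN N, ‖tr A‖ ≤ ‖A‖ := by
    intro A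
    have hent : ∀ p, ‖ent A p p‖ ≤ ‖A‖ := by
      intro p
      unfold ent
      refine (PiLp.norm_apply_le _ p).trans ?_
      refine (A.le_opNorm _).trans ?_
      rw [PiLp.norm_single, norm_one, mul_one]
    rcases Nat.eq_zero_or_pos N with h0 | h0
    · subst h0
      unfold tr
      simp
    · unfold tr
      have hN : (0 : ℝ) < N := by exact_mod_cast h0
      rw [norm_mul, norm_div, norm_one, Complex.norm_natCast]
      have h1 : ‖∑ p, ent A p p‖ ≤ N * ‖A‖ := by
        refine (norm_sum_le _ _).trans ?_
        refine (Finset.sum_le_sum (fun p _ => hent p)).trans ?_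
        simp
      calc 1 / (N : ℝ) * ‖∑ p, ent A p p‖ ≤ 1 / (N : ℝ) * (N * ‖A‖) :=
            mul_le_mul_of_nonneg_left h1 (by positivity)
        _ = ‖A‖ := by field_simp
  refine ⟨hadd, hsmul, hle, ?_⟩
  let L : BN N →ₗ[ℂ] ℂ :=
    { toFun := fun A => tr A
      map_add' := hadd
      map_smul' := by
        intro c A
        rw [hsmul]
        rfl }
  exact (L.mkContinuous 1 (fun A => by rw [one_mul]; exact hle A)).continuous

end tr_facts

alias tr_facts := tr_facts.tr_facts

end Pool.Agent.Helper38.FE.U
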