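import Pool.Agent.Helper819.FEU.Defs
import Pool.Agent.Helper819.FEU.inner_crd
import Pool.Agent.Helper819.FEU.tr_facts

set_option autoImplicit false
set_option linter.unusedVariables false
set_option linter.unusedSectionVars false
set_option linter.dupNamespace false

open MeasureTheory Filter Topology ProbabilityTheory
open scoped InnerProductSpace ENNReal

namespace Pool.Agent.Helper38.FE.U

-- BEGIN TARGET (everything above is GIVEN, keep it unchanged; prove the theorem below; auxiliary lemmas go inside this namespace, before it)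
namespace crd_facts

theorem cont_ent572 (N : ℕ) (p q : Fin N) : Continuous (fun A : BN N => ent A p q) := by
  have h1 : Continuous (fun A : BN N => A (EuclideanSpace.single q 1)) :=
    (ContinuousLinearMap.apply ℂ (EuclideanSpace ℂ (Fin N)) (EuclideanSpace.single q 1)).continuous
  exact (PiLp.continuous_apply 2 (fun _ : Fin N => ℂ) p).comp h1

/-- norm bound and continuity of the coordinates -/
theorem crd_facts (N : ℕ) : (∀ A : BN N, IsSelfAdjoint A → ‖crd A‖ ≤ N * ‖A‖) ∧
    Continuous (fun A : BN N => crd A) := by
  refine ⟨fun A hA => ?_, ?_⟩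
  · have h1 : ‖crd A‖ ^ 2 = (N : ℝ) ^ 2 * (tr (A * A)).re := by
      rw [← real_inner_self_eq_norm_sq, inner_crd N A A hA hA]
    have h2 : (tr (A * A)).re ≤ ‖A‖ * ‖A‖ :=
      (Complex.re_le_norm _).trans (((tr_facts N).2.2.1 (A * A)).trans (norm_mul_le A A))
    have h3 : ‖crd A‖ ^ 2 ≤ (N * ‖A‖) ^ 2 := by
      rw [h1, mul_pow, sq ‖A‖]
      exact mul_le_mul_of_nonneg_left h2 (sq_nonneg _)
    exact le_of_sq_le_sq h3 (by positivity)
  · unfold crd
    refine (PiLp.continuous_toLp 2 _).comp (continuous_pi fun p => ?_)
    exact continuous_const.mul ((Complex.continuous_re.comp (cont_ent572 N p.1 p.2)).add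
      (Complex.continuous_im.comp (cont_ent572 N p.1 p.2)))

end crd_facts

alias crd_facts := crd_facts.crd_facts

end Pool.Agent.Helper38.FE.U
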