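import Pool.Agent.Helper819.FEU.Defs
import Pool.Agent.Helper819.FEU.Hm_sa
import Pool.Agent.Helper819.FEU.crd_facts

set_option autoImplicit false
set_option linter.unusedVariables false
set_option linter.unusedSectionVars false
set_option linter.dupNamespace false

open MeasureTheory Filter Topology ProbabilityTheory
open scoped InnerProductSpace ENNReal

namespace Pool.Agent.Helper38.FE.U

-- BEGIN TARGET (everything above is GIVEN, keep it unchanged; prove the theorem below; auxiliary lemmas go inside this namespace, before it)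
namespace PN_basic

theorem Yt_cont (N : ℕ) (i : Fin 4) : Continuous fun y => Yt N y i := by
  refine Fin.lastCases ?_ (fun j => ?_) i
  · simp only [Yt, Fin.snoc_last]
    exact (Hm_sa N).2.2.2.comp continuous_snd
  · simp only [Yt, Fin.snoc_castSucc, Xm]
    refine (Hm_sa N).2.2.2.comp ?_
    refine (PiLp.continuous_toLp 2 _).comp (continuous_pi fun p => ?_)
    fun_prop

theorem ev_cont (N : ℕ) (q : List (Fin 4) →₀ ℂ) : Continuous fun y => ev (Yt N y) q := by
  unfold ev Finsupp.sum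
  refine continuous_finset_sum _ fun w _ => ?_
  have h : Continuous fun y => ((w.map (Yt N y)).prod : BN N) :=
    continuous_list_prod (f := fun i y => Yt N y i) w fun i _ => Yt_cont N i
  exact h.const_smul (q w)

theorem star_cont (N : ℕ) : Continuous (fun T : BN N => star T) :=
  (ContinuousLinearMap.adjoint (𝕜 := ℂ) (E := EuclideanSpace ℂ (Fin N))
    (F := EuclideanSpace ℂ (Fin N))).isometry.continuous

theorem star_norm (N : ℕ) (T : BN N) : ‖star T‖ = ‖T‖ :=
  (ContinuousLinearMap.adjoint (𝕜 := ℂ) (E := EuclideanSpace ℂ (Fin N))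
    (F := EuclideanSpace ℂ (Fin N))).norm_map T

theorem hp_cont (N : ℕ) (q : List (Fin 4) →₀ ℂ) : Continuous fun y => hp q (Yt N y) := by
  unfold hp
  exact ((ev_cont N q).add ((star_cont N).comp (ev_cont N q))).const_smul (1 / 2 : ℂ)

theorem hp_sa_gen {A : Type*} [Ring A] [StarRing A] [Algebra ℂ A] [StarModule ℂ A]
    (q : List (Fin 4) →₀ ℂ) (Y : Fin 4 → A) : IsSelfAdjoint (hp q Y) := by
  unfold hp IsSelfAdjoint
  rw [star_smul, star_add, star_star, add_comm (star _)]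
  congr 1
  simp

theorem hp_sa (N : ℕ) (q : List (Fin 4) →₀ ℂ) (Y : Fin 4 → BN N) : IsSelfAdjoint (hp q Y) :=
  hp_sa_gen q Y

theorem word_bd (N : ℕ) (R : ℝ) (hR : 1 ≤ R) (Y : Fin 4 → BN N) (hY : ∀ i, ‖Y i‖ ≤ R)
    (w : List (Fin 4)) : ‖(w.map Y).prod‖ ≤ R ^ w.length := by
  induction w with
  | nil =>
    simp only [List.map_nil, List.prod_nil, List.length_nil, pow_zero]
    exact ContinuousLinearMap.norm_id_le
  | cons a w ih =>
    simp only [List.map_cons, List.prod_cons, List.length_cons]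
    calc ‖Y a * (w.map Y).prod‖ ≤ ‖Y a‖ * ‖(w.map Y).prod‖ := norm_mul_le _ _
      _ ≤ R * R ^ w.length := mul_le_mul (hY a) ih (norm_nonneg _) (by linarith)
      _ = R ^ (w.length + 1) := by rw [pow_succ]; ring

/-- bound for the polynomial -/
noncomputable def Kq (R : ℝ) (q : List (Fin 4) →₀ ℂ) : ℝ :=
  ∑ w ∈ q.support, ‖q w‖ * R ^ w.length

theorem Kq_nonneg (R : ℝ) (hR : 1 ≤ R) (q : List (Fin 4) →₀ ℂ) : 0 ≤ Kq R q := by
  unfold Kq
  exact Finset.sum_nonneg fun w _ => mul_nonneg (norm_nonneg _) (pow_nonneg (by linarith) _)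

theorem ev_bd (N : ℕ) (R : ℝ) (hR : 1 ≤ R) (Y : Fin 4 → BN N) (hY : ∀ i, ‖Y i‖ ≤ R)
    (q : List (Fin 4) →₀ ℂ) : ‖ev Y q‖ ≤ Kq R q := by
  unfold ev Finsupp.sum Kq
  refine norm_sum_le_of_le _ fun w _ => ?_
  refine (norm_smul_le _ _).trans ?_
  exact mul_le_mul_of_nonneg_left (word_bd N R hR Y hY w) (norm_nonneg _)

theorem hp_bd (N : ℕ) (R : ℝ) (hR : 1 ≤ R) (Y : Fin 4 → BN N) (hY : ∀ i, ‖Y i‖ ≤ R)
    (q : List (Fin 4) →₀ ℂ) : ‖hp q Y‖ ≤ Kq R q := by
  unfold hp
  have h1 := ev_bd N R hR Y hY q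
  calc ‖(1 / 2 : ℂ) • (ev Y q + star (ev Y q))‖ ≤ ‖(1 / 2 : ℂ)‖ * ‖ev Y q + star (ev Y q)‖ :=
        norm_smul_le (1 / 2 : ℂ) (ev Y q + star (ev Y q))
    _ ≤ (1 / 2) * (‖ev Y q‖ + ‖star (ev Y q)‖) := by
        have e : ‖(1 / 2 : ℂ)‖ = 1 / 2 := by norm_num
        rw [e]
        exact mul_le_mul_of_nonneg_left (norm_add_le _ _) (by norm_num)
    _ ≤ Kq R q := by
        rw [star_norm]
        linarith

theorem crd_bd (N : ℕ) (R : ℝ) (hR : 1 ≤ R) (Y : Fin 4 → BN N) (hY : ∀ i, ‖Y i‖ ≤ R)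
    (q : List (Fin 4) →₀ ℂ) : ‖crd (hp q Y)‖ ≤ Kq R q * N := by
  refine ((crd_facts N).1 _ (hp_sa N q Y)).trans ?_
  rw [mul_comm]
  exact mul_le_mul_of_nonneg_right (hp_bd N R hR Y hY q) (Nat.cast_nonneg _)

theorem first_norm (N : ℕ) (v : Fin 3 → EuclideanSpace ℝ (Fin N × Fin N)) :
    ‖(WithLp.toLp 2 fun p : Fin 3 × Fin N × Fin N => v p.1 p.2 :
      EuclideanSpace ℝ (Fin 3 × Fin N × Fin N))‖ ^ 2 = ∑ j, ‖v j‖ ^ 2 := by
  rw [EuclideanSpace.norm_sq_eq, Fintype.sum_prod_type]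
  refine Finset.sum_congr rfl fun j _ => ?_
  rw [EuclideanSpace.norm_sq_eq]

theorem first_cont (N : ℕ) (q : Fin 4 → (List (Fin 4) →₀ ℂ)) : Continuous fun y =>
    ((WithLp.toLp 2 fun p : Fin 3 × Fin N × Fin N =>
      crd (hp (q p.1.castSucc) (Yt N y)) p.2 : EuclideanSpace ℝ (Fin 3 × Fin N × Fin N)),
      crd (hp (q (Fin.last 3)) (Yt N y))) := by
  refine Continuous.prodMk ?_ ((crd_facts N).2.comp (hp_cont N _))
  refine (PiLp.continuous_toLp 2 _).comp (continuous_pi fun p => ?_)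
  have h := (crd_facts N).2.comp (hp_cont N (q p.1.castSucc))
  exact (PiLp.continuous_ofLp 2 _ |>.comp h |> (continuous_apply p.2).comp)

/-- the test map is measurable and bounded, with a bound linear in `N` -/
theorem PN_basic (q : Fin 4 → (List (Fin 4) →₀ ℂ)) (L' : ℝ) :
    (∀ N, Measurable (PN N q L')) ∧
    ∃ C : ℝ, 0 ≤ C ∧ ∀ N y, ‖(PN N q L' y).1‖ ≤ C * N ∧ ‖(PN N q L' y).2‖ ≤ C * N := by
  constructor
  · intro N
    unfold PN
    have hcl : IsClosed {y | ∀ i, ‖Yt N y i‖ ≤ L'} := by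
      have : {y | ∀ i, ‖Yt N y i‖ ≤ L'} = ⋂ i, {y | ‖Yt N y i‖ ≤ L'} := by
        ext y
        simp
      rw [this]
      exact isClosed_iInter fun i => isClosed_le (Yt_cont N i).norm continuous_const
    exact Measurable.ite hcl.measurableSet (first_cont N q).measurable measurable_const
  · have hR : 1 ≤ max L' 1 := le_max_right _ _
    have hL : L' ≤ max L' 1 := le_max_left _ _
    generalize max L' 1 = R at hR hL
    have hK : ∀ i, 0 ≤ Kq R (q i) := fun i => Kq_nonneg R hR (q i)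
    refine ⟨∑ i, Kq R (q i), Finset.sum_nonneg fun i _ => hK i, fun N y => ?_⟩
    have hC0 : 0 ≤ (∑ i, Kq R (q i)) * (N : ℝ) :=
      mul_nonneg (Finset.sum_nonneg fun i _ => hK i) (Nat.cast_nonneg _)
    by_cases h : ∀ i, ‖Yt N y i‖ ≤ L'
    · have hY : ∀ i, ‖Yt N y i‖ ≤ R := fun i => (h i).trans hL
      unfold PN
      rw [if_pos h]
      constructor
      · show ‖(WithLp.toLp 2 fun p : Fin 3 × Fin N × Fin N =>
          (fun j : Fin 3 => crd (hp (q j.castSucc) (Yt N y))) p.1 p.2 :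
          EuclideanSpace ℝ (Fin 3 × Fin N × Fin N))‖ ≤ _
        rw [← pow_le_pow_iff_left₀ (norm_nonneg _) hC0 two_ne_zero]
        refine (first_norm N (fun j => crd (hp (q j.castSucc) (Yt N y)))).trans_le ?_
        have hb : ∀ j : Fin 3, ‖crd (hp (q j.castSucc) (Yt N y))‖ ≤ Kq R (q j.castSucc) * N :=
          fun j => crd_bd N R hR (Yt N y) hY _
        have hNn : (0 : ℝ) ≤ N := Nat.cast_nonneg _
        rw [Fin.sum_univ_three, Fin.sum_univ_castSucc, Fin.sum_univ_three]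
        have e0 := pow_le_pow_left₀ (norm_nonneg _) (hb 0) 2
        have e1 := pow_le_pow_left₀ (norm_nonneg _) (hb 1) 2
        have e2 := pow_le_pow_left₀ (norm_nonneg _) (hb 2) 2
        have k0 := mul_nonneg (hK (Fin.castSucc (0 : Fin 3))) hNn
        have k1 := mul_nonneg (hK (Fin.castSucc (1 : Fin 3))) hNn
        have k2 := mul_nonneg (hK (Fin.castSucc (2 : Fin 3))) hNn
        have k3 := mul_nonneg (hK (Fin.last 3)) hNn
        have e : (Kq R (q (Fin.castSucc (0 : Fin 3))) + Kq R (q (Fin.castSucc (1 : Fin 3))) +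
            Kq R (q (Fin.castSucc (2 : Fin 3))) + Kq R (q (Fin.last 3))) * (N : ℝ) =
            Kq R (q (Fin.castSucc (0 : Fin 3))) * N + Kq R (q (Fin.castSucc (1 : Fin 3))) * N +
            Kq R (q (Fin.castSucc (2 : Fin 3))) * N + Kq R (q (Fin.last 3)) * N := by ring
        rw [e]
        generalize Kq R (q (Fin.castSucc (0 : Fin 3))) * (N : ℝ) = a0 at *
        generalize Kq R (q (Fin.castSucc (1 : Fin 3))) * (N : ℝ) = a1 at *
        generalize Kq R (q (Fin.castSucc (2 : Fin 3))) * (N : ℝ) = a2 at *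
        generalize Kq R (q (Fin.last 3)) * (N : ℝ) = a3 at *
        refine (add_le_add (add_le_add e0 e1) e2).trans ?_
        nlinarith [mul_nonneg k0 k1, mul_nonneg k0 k2, mul_nonneg k0 k3, mul_nonneg k1 k2,
          mul_nonneg k1 k3, mul_nonneg k2 k3, mul_nonneg k3 k3]
      · refine (crd_bd N R hR (Yt N y) hY _).trans ?_
        apply mul_le_mul_of_nonneg_right _ (Nat.cast_nonneg _)
        exact Finset.single_le_sum (f := fun i => Kq R (q i)) (fun i _ => hK i) (Finset.mem_univ _)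
    · unfold PN
      rw [if_neg h]
      simp only [Prod.fst_zero, Prod.snd_zero, norm_zero]
      exact ⟨hC0, hC0⟩

end PN_basic

alias PN_basic := PN_basic.PN_basic

end Pool.Agent.Helper38.FE.U
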