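import Pool.Agent.Helper819.FEU.Defs

set_option autoImplicit false
set_option linter.unusedVariables false
set_option linter.unusedSectionVars false
set_option linter.dupNamespace false

open MeasureTheory Filter Topology ProbabilityTheory
open scoped InnerProductSpace ENNReal

namespace Pool.Agent.Helper38.FE.U

-- BEGIN TARGET (everything above is GIVEN, keep it unchanged; prove the theorem below; auxiliary lemmas go inside this namespace, before it)
namespace Rep_alg

theorem lc_mul_16574 {κ : Type} {A : Type*} [Ring A] [Algebra ℂ A] (E : List κ → A)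
    (hE : ∀ w w', E (w ++ w') = E w * E w') (z z' : List κ →₀ ℂ) :
    ((z.sum fun w c => z'.sum fun w' c' => Finsupp.single (w ++ w') (c * c')) : List κ →₀ ℂ).sum
      (fun w c => c • E w) =
      (z.sum fun w c => c • E w) * (z'.sum fun w c => c • E w) := by
  have h1 : ∀ y : List κ →₀ ℂ, (y.sum fun w c => c • E w) = Finsupp.linearCombination ℂ E y :=
    fun y => (Finsupp.linearCombination_apply ℂ y).symm
  rw [h1 ((z.sum fun w c => z'.sum fun w' c' => Finsupp.single (w ++ w') (c * c')))]
  rw [map_finsuppSum, Finsupp.sum_mul]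
  unfold Finsupp.sum
  apply Finset.sum_congr rfl
  intro w _
  show (Finsupp.linearCombination ℂ E) (∑ a_1 ∈ z'.support, Finsupp.single (w ++ a_1) (z w * z' a_1)) =
    z w • E w * ∑ a ∈ z'.support, z' a • E a
  rw [map_sum, Finset.mul_sum]
  apply Finset.sum_congr rfl
  intro w' _
  rw [Finsupp.linearCombination_single, hE, smul_mul_smul_comm]

theorem evW_append_16574 {ι : Type} {A : Type*} [Ring A] [StarRing A] [Algebra ℂ A] (x : ι → A)
    (w w' : List (Lt ι)) : evW x (w ++ w') = evW x w * evW x w' := by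
  unfold evW
  rw [List.map_append, List.prod_append]

theorem evW_single_16574 {ι : Type} {A : Type*} [Ring A] [StarRing A] [Algebra ℂ A] (x : ι → A)
    (w : List (Lt ι)) : ((Finsupp.single w (1:ℂ)).sum fun w c => c • evW x w) = evW x w := by
  have h : ((Finsupp.single w (1:ℂ)).sum fun w c => c • evW x w) = (1:ℂ) • evW x w :=
    Finsupp.sum_single_index (zero_smul _ _)
  rw [h, one_smul]

theorem lc_add_16574 {κ : Type} {A : Type*} [Ring A] [Algebra ℂ A] (E : List κ → A)
    (z z' : List κ →₀ ℂ) :
    ((z + z').sum fun w c => c • E w) = (z.sum fun w c => c • E w) + (z'.sum fun w c => c • E w) :=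
  Finsupp.sum_add_index' (fun _ => zero_smul _ _) (fun _ _ _ => add_smul _ _ _)

theorem lc_smul_16574 {κ : Type} {A : Type*} [Ring A] [Algebra ℂ A] (E : List κ → A) (c : ℂ)
    (z : List κ →₀ ℂ) :
    ((c • z).sum fun w c => c • E w) = c • (z.sum fun w c => c • E w) := by
  have h1 : ∀ y : List κ →₀ ℂ, (y.sum fun w c => c • E w) = Finsupp.linearCombination ℂ E y :=
    fun y => (Finsupp.linearCombination_apply ℂ y).symm
  rw [h1, h1, map_smul]

/-- `Rep` is closed under sums, scalar multiples and products -/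
theorem Rep_alg {ι H : Type} [Fintype ι] [NormedAddCommGroup H] [InnerProductSpace ℂ H]
    [CompleteSpace H] (S : FS ι H) :
    (Rep S (fun _ _ => 1) 1) ∧
    (∀ i, Rep S (fun N x => Xm N x i) (S.s i)) ∧
    (∀ i, Rep S (fun N x => cay (Xm N x i)) (cay (S.s i))) ∧
    (∀ T a T' a', Rep S T a → Rep S T' a' → Rep S (fun N x => T N x + T' N x) (a + a')) ∧
    (∀ (c : ℂ) T a, Rep S T a → Rep S (fun N x => c • T N x) (c • a)) ∧
    (∀ T a T' a', Rep S T a → Rep S T' a' → Rep S (fun N x => T N x * T' N x) (a * a')) := by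
  refine ⟨?_, ?_, ?_, ?_, ?_, ?_⟩
  · refine ⟨Finsupp.single [] 1, ?_, ?_⟩
    · intro N x
      rw [evW_single_16574]
      rfl
    · rw [evW_single_16574]
      rfl
  · intro i
    refine ⟨Finsupp.single [Lt.X i] 1, ?_, ?_⟩
    · intro N x
      rw [evW_single_16574]
      simp [evW, evL]
    · rw [evW_single_16574]
      simp [evW, evL]
  · intro i
    refine ⟨Finsupp.single [Lt.U i] 1, ?_, ?_⟩
    · intro N x
      rw [evW_single_16574]
      simp [evW, evL]
    · rw [evW_single_16574]
      simp [evW, evL]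
  · rintro T a T' a' ⟨z, hz1, hz2⟩ ⟨z', hz1', hz2'⟩
    refine ⟨z + z', ?_, ?_⟩
    · intro N x
      show T N x + T' N x = _
      rw [hz1, hz1']
      exact (lc_add_16574 (evW (Xm N x)) z z').symm
    · rw [hz2, hz2']
      exact (lc_add_16574 (evW S.s) z z').symm
  · rintro c T a ⟨z, hz1, hz2⟩
    refine ⟨c • z, ?_, ?_⟩
    · intro N x
      show c • T N x = _
      rw [hz1]
      exact (lc_smul_16574 (evW (Xm N x)) c z).symm
    · rw [hz2]
      exact (lc_smul_16574 (evW S.s) c z).symm
  · rintro T a T' a' ⟨z, hz1, hz2⟩ ⟨z', hz1', hz2'⟩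
    refine ⟨z.sum fun w c => z'.sum fun w' c' => Finsupp.single (w ++ w') (c * c'), ?_, ?_⟩
    · intro N x
      show T N x * T' N x = _
      rw [hz1, hz1']
      exact (lc_mul_16574 (evW (Xm N x)) (evW_append_16574 _) z z').symm
    · rw [hz2, hz2']
      exact (lc_mul_16574 (evW S.s) (evW_append_16574 _) z z').symm

end Rep_alg

alias Rep_alg := Rep_alg.Rep_alg

end Pool.Agent.Helper38.FE.U
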