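import Pool.Agent.Helper819.FEU.Defs
import Pool.Agent.Helper819.FEU.Hm_sa
import Pool.Agent.Helper819.FEU.Rep_alg

set_option autoImplicit false
set_option linter.unusedVariables false
set_option linter.unusedSectionVars false
set_option linter.dupNamespace false

open MeasureTheory Filter Topology ProbabilityTheory
open scoped InnerProductSpace ENNReal

namespace Pool.Agent.Helper38.FE.U

-- BEGIN TARGET (everything above is GIVEN, keep it unchanged; prove the theorem below; auxiliary lemmas go inside this namespace, before it)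
namespace Rep_star

/-- adjoint letter -/
def flip {ι : Type} : Lt ι → Lt ι
  | Lt.X i => Lt.X i
  | Lt.U i => Lt.V i
  | Lt.V i => Lt.U i

theorem star_evL {A : Type*} [Ring A] [StarRing A] [Algebra ℂ A] {ι : Type} (x : ι → A)
    (hx : ∀ i, star (x i) = x i) (l : Lt ι) : star (evL x l) = evL x (flip l) := by
  cases l with
  | X i => exact hx i
  | U i => rfl
  | V i => exact star_star _

theorem star_evW {A : Type*} [Ring A] [StarRing A] [Algebra ℂ A] {ι : Type} (x : ι → A)
    (hx : ∀ i, star (x i) = x i) (w : List (Lt ι)) :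
    star (evW x w) = evW x ((w.map flip).reverse) := by
  unfold evW
  induction w with
  | nil => simp
  | cons l t ih =>
    rw [List.map_cons, List.prod_cons, star_mul, ih, star_evL x hx]
    simp

theorem Rep_zero {ι H : Type} [Fintype ι] [NormedAddCommGroup H] [InnerProductSpace ℂ H]
    [CompleteSpace H] (S : FS ι H) : Rep S (fun _ _ => 0) 0 :=
  ⟨0, by intro N x; simp, by simp⟩

theorem Rep_sum {ι H α : Type} [Fintype ι] [NormedAddCommGroup H] [InnerProductSpace ℂ H]
    [CompleteSpace H] (S : FS ι H) (s : Finset α)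
    (T : α → ∀ N : ℕ, EuclideanSpace ℝ (ι × Fin N × Fin N) → BN N) (a : α → (H →L[ℂ] H))
    (h : ∀ i ∈ s, Rep S (T i) (a i)) :
    Rep S (fun N x => ∑ i ∈ s, T i N x) (∑ i ∈ s, a i) := by
  classical
  induction s using Finset.induction_on with
  | empty => simpa using Rep_zero S
  | insert i s hi ih =>
    have h1 := (Rep_alg S).2.2.2.1 _ _ _ _ (h i (Finset.mem_insert_self i s))
      (ih (fun j hj => h j (Finset.mem_insert_of_mem hj)))
    simpa only [Finset.sum_insert hi] using h1

theorem Rep_term {ι H : Type} [Fintype ι] [NormedAddCommGroup H] [InnerProductSpace ℂ H]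
    [CompleteSpace H] (S : FS ι H) (w : List (Lt ι)) (c : ℂ) :
    Rep S (fun N x => star (c • evW (Xm N x) w)) (star (c • evW S.s w)) := by
  refine ⟨Finsupp.single ((w.map flip).reverse) (star c), ?_, ?_⟩
  · intro N x
    have h1 : star (c • evW (Xm N x) w) = star c • evW (Xm N x) ((w.map flip).reverse) := by
      rw [← star_evW (Xm N x) (fun i => ((Hm_sa N).1 _).star_eq) w]
      exact star_smul _ _
    refine h1.trans (Finsupp.sum_single_index
      (h := fun w (c : ℂ) => c • evW (Xm N x) w) ?_).symm
    exact zero_smul ℂ (evW (Xm N x) ((w.map flip).reverse))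
  · rw [Finsupp.sum_single_index (by simp), star_smul, star_evW]
    intro i
    exact (S.s_sa i).star_eq

/-- `Rep` is closed under adjoints -/
theorem Rep_star {ι H : Type} [Fintype ι] [NormedAddCommGroup H] [InnerProductSpace ℂ H]
    [CompleteSpace H] (S : FS ι H) (T : ∀ N : ℕ, EuclideanSpace ℝ (ι × Fin N × Fin N) → BN N)
    (a : H →L[ℂ] H) (h : Rep S T a) : Rep S (fun N x => star (T N x)) (star a) := by
  obtain ⟨z, hT, ha⟩ := h
  have e1 : (fun (N : ℕ) (x : EuclideanSpace ℝ (ι × Fin N × Fin N)) => star (T N x)) =
      fun N x => ∑ w ∈ z.support, star (z w • evW (Xm N x) w) := by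
    funext N x
    rw [hT, Finsupp.sum]
    exact star_sum (R := BN N) z.support (fun w => z w • evW (Xm N x) w)
  have e2 : star a = ∑ w ∈ z.support, star (z w • evW S.s w) := by
    rw [ha, Finsupp.sum, star_sum]
  rw [e1, e2]
  exact Rep_sum S z.support (fun w N x => star (z w • evW (Xm N x) w))
    (fun w => star (z w • evW S.s w)) (fun w _ => Rep_term S w (z w))

end Rep_star

alias Rep_star := Rep_star.Rep_star

end Pool.Agent.Helper38.FE.U
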