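import Pool.Agent.Helper819.FEU.Defs
import Pool.Agent.Helper819.FEU.Rep_alg

set_option autoImplicit false
set_option linter.unusedVariables false
set_option linter.unusedSectionVars false
set_option linter.dupNamespace false

open MeasureTheory Filter Topology ProbabilityTheory
open scoped InnerProductSpace ENNReal

namespace Pool.Agent.Helper38.FE.U

-- BEGIN TARGET (everything above is GIVEN, keep it unchanged; prove the theorem below; auxiliary lemmas go inside this namespace, before it)
namespace Rep_sum

/-- finite sums and products of representable families -/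
theorem Rep_sum {ι H : Type} [Fintype ι] [NormedAddCommGroup H] [InnerProductSpace ℂ H]
    [CompleteSpace H] (S : FS ι H) :
    (∀ (α : Type) (s : Finset α)
      (T : α → ∀ N : ℕ, EuclideanSpace ℝ (ι × Fin N × Fin N) → BN N) (a : α → (H →L[ℂ] H)),
      (∀ i ∈ s, Rep S (T i) (a i)) → Rep S (fun N x => ∑ i ∈ s, T i N x) (∑ i ∈ s, a i)) ∧
    (∀ (α : Type) (l : List α)
      (T : α → ∀ N : ℕ, EuclideanSpace ℝ (ι × Fin N × Fin N) → BN N) (a : α → (H →L[ℂ] H)),
      (∀ i, Rep S (T i) (a i)) →
        Rep S (fun N x => (l.map fun i => T i N x).prod) ((l.map a).prod)) := by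
  classical
  obtain ⟨h1, -, -, hadd, -, hmul⟩ := Rep_alg S
  have h0 : Rep S (fun _ _ => 0) 0 := ⟨0, fun N x => by simp, by simp⟩
  constructor
  · intro α s T a h
    induction s using Finset.induction_on with
    | empty => simpa only [Finset.sum_empty] using h0
    | insert i s hi ih =>
      have h2 := hadd _ _ _ _ (h i (Finset.mem_insert_self i s))
        (ih (fun j hj => h j (Finset.mem_insert_of_mem hj)))
      simpa only [Finset.sum_insert hi] using h2
  · intro α l T a h
    induction l with
    | nil => simpa only [List.map_nil, List.prod_nil] using h1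
    | cons i l ih =>
      have h2 := hmul _ _ _ _ (h i) ih
      simpa only [List.map_cons, List.prod_cons] using h2

end Rep_sum

alias Rep_sum := Rep_sum.Rep_sum

end Pool.Agent.Helper38.FE.U
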