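import Pool.Agent.Helper819.FEU.Defs
import Pool.Agent.Helper819.FEU.Rep_alg
import Pool.Agent.Helper819.FEU.Rep_star
import Pool.Agent.Helper819.FEU.Rep_sum

set_option autoImplicit false
set_option linter.unusedVariables false
set_option linter.unusedSectionVars false
set_option linter.dupNamespace false

open MeasureTheory Filter Topology ProbabilityTheory
open scoped InnerProductSpace ENNReal

namespace Pool.Agent.Helper38.FE.U

-- BEGIN TARGET (everything above is GIVEN, keep it unchanged; prove the theorem below; auxiliary lemmas go inside this namespace, before it)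
namespace Rep_ZN

/-- the matrix expression is representable -/
theorem Rep_ZN {H : Type} [NormedAddCommGroup H] [InnerProductSpace ℂ H] [CompleteSpace H]
    (S : FS I0 H) (r : ℕ → ℝ) (b : ℕ → List (Fin 3)) (K : ℕ) (u : ℝ)
    (q : Fin 4 → (List (Fin 4) →₀ ℂ)) :
    Rep S (ZN r b K u q) (∑ i : Fin 4,
      ((2 : ℂ) • (S.n1 i * hp (q i) (pert (S.tup (xK r b K S.xb)) S.n1 u)) -
        hp (q i) (pert (S.tup (xK r b K S.xb)) S.n1 u) *
          hp (q i) (pert (S.tup (xK r b K S.xb)) S.n1 u))) := by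
  obtain ⟨h1, hX, hC, hadd, hsmul, hmul⟩ := Rep_alg S
  obtain ⟨hsum, hprod⟩ := Rep_sum S
  have hstar := Rep_star S
  have hsub : ∀ (T : ∀ N : ℕ, EuclideanSpace ℝ (I0 × Fin N × Fin N) → BN N) (a : H →L[ℂ] H)
      (T' : ∀ N : ℕ, EuclideanSpace ℝ (I0 × Fin N × Fin N) → BN N) (a' : H →L[ℂ] H),
      Rep S T a → Rep S T' a' → Rep S (fun N x => T N x - T' N x) (a - a') := by
    intro T a T' a' h h'
    have h2 := hadd T a (fun N x => (-1 : ℂ) • T' N x) ((-1 : ℂ) • a') h (hsmul (-1) T' a' h')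
    have e1 : (fun (N : ℕ) (x : EuclideanSpace ℝ (I0 × Fin N × Fin N)) => T N x - T' N x) =
        fun N x => T N x + (-1 : ℂ) • T' N x := by
      funext N x
      have e0 : (-1 : ℂ) • T' N x = - T' N x := neg_one_smul ℂ (T' N x)
      rw [e0, sub_eq_add_neg]
    have e2 : a - a' = a + (-1 : ℂ) • a' := by rw [neg_one_smul, sub_eq_add_neg]
    rw [e1, e2]
    exact h2
  have hW : ∀ b' : List (Fin 3), Rep S (fun N x => Wd b' (fun i : Fin 3 => Xm N x (Sum.inl i)))
      (Wd b' S.xb) := by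
    intro b'
    exact hprod (Fin 3) b' (fun i N x => cay (Xm N x (Sum.inl i))) (fun i => cay (S.s (Sum.inl i)))
      (fun i => hC (Sum.inl i))
  have hF : ∀ b' : List (Fin 3), Rep S (fun N x => Fb b' (fun i : Fin 3 => Xm N x (Sum.inl i)))
      (Fb b' S.xb) := by
    intro b'
    exact hadd _ _ _ _ (hW b') (hstar _ _ (hW b'))
  have hxK : Rep S (fun N x => xK r b K (fun i : Fin 3 => Xm N x (Sum.inl i))) (xK r b K S.xb) := by
    exact hsum ℕ (Finset.range K) (fun j N x => ((r j : ℝ) : ℂ) • Fb (b j) (fun i : Fin 3 => Xm N x (Sum.inl i)))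
      (fun j => ((r j : ℝ) : ℂ) • Fb (b j) S.xb) (fun j _ => hsmul _ _ _ (hF (b j)))
  have hbase : ∀ i : Fin 4, Rep S (fun N x => (Fin.snoc (α := fun _ => BN N)
      (fun i : Fin 3 => Xm N x (Sum.inl i)) (xK r b K fun i : Fin 3 => Xm N x (Sum.inl i)) : Fin 4 → BN N) i)
      (S.tup (xK r b K S.xb) i) := by
    intro i
    unfold FS.tup
    induction i using Fin.lastCases with
    | last =>
      simp only [Fin.snoc_last]
      exact hxK
    | cast j =>
      simp only [Fin.snoc_castSucc]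
      exact hX (Sum.inl j)
  have hY : ∀ i : Fin 4, Rep S (fun N x => YN r b K u N x i) (pert (S.tup (xK r b K S.xb)) S.n1 u i) := by
    intro i
    exact hadd _ _ _ _ (hbase i) (hsmul _ _ _ (hX (Sum.inr (Sum.inl i))))
  have hev : ∀ p : List (Fin 4) →₀ ℂ, Rep S (fun N x => ev (YN r b K u N x) p)
      (ev (pert (S.tup (xK r b K S.xb)) S.n1 u) p) := by
    intro p
    exact hsum (List (Fin 4)) p.support (fun w N x => p w • (w.map (YN r b K u N x)).prod)
      (fun w => p w • (w.map (pert (S.tup (xK r b K S.xb)) S.n1 u)).prod)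
      (fun w _ => hsmul _ _ _ (hprod (Fin 4) w (fun j N x => YN r b K u N x j)
        (pert (S.tup (xK r b K S.xb)) S.n1 u) hY))
  have hhp : ∀ p : List (Fin 4) →₀ ℂ, Rep S (fun N x => hp p (YN r b K u N x))
      (hp p (pert (S.tup (xK r b K S.xb)) S.n1 u)) := by
    intro p
    exact hsmul _ _ _ (hadd _ _ _ _ (hev p) (hstar _ _ (hev p)))
  exact hsum (Fin 4) Finset.univ
    (fun i N x => (2 : ℂ) • (Xm N x (Sum.inr (Sum.inl i)) * hp (q i) (YN r b K u N x)) -
      hp (q i) (YN r b K u N x) * hp (q i) (YN r b K u N x))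
    (fun i => (2 : ℂ) • (S.n1 i * hp (q i) (pert (S.tup (xK r b K S.xb)) S.n1 u)) -
        hp (q i) (pert (S.tup (xK r b K S.xb)) S.n1 u) *
          hp (q i) (pert (S.tup (xK r b K S.xb)) S.n1 u))
    (fun i _ => hsub _ _ _ _ (hsmul _ _ _ (hmul _ _ _ _ (hX (Sum.inr (Sum.inl i))) (hhp (q i))))
      (hmul _ _ _ _ (hhp (q i)) (hhp (q i))))

end Rep_ZN

alias Rep_ZN := Rep_ZN.Rep_ZN

end Pool.Agent.Helper38.FE.U
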