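import Pool.Agent.Helper819.FEU.Defs

set_option autoImplicit false
set_option linter.unusedVariables false
set_option linter.unusedSectionVars false
set_option linter.dupNamespace false

open MeasureTheory Filter Topology ProbabilityTheory
open scoped InnerProductSpace ENNReal

namespace Pool.Agent.Helper38.FE.U

variable {H : Type} [NormedAddCommGroup H] [InnerProductSpace ℂ H] [CompleteSpace H]

namespace cay_facts

open ComplexConjugate in
theorem al_facts : ‖al‖ ≤ 1 ∧ al * al = -(1 / 2) ∧ conj al = -al ∧ al ≠ 0 := by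
  have h2 : ((√2 : ℝ) : ℂ) * ((√2 : ℝ) : ℂ) = 2 := by
    rw [← Complex.ofReal_mul, Real.mul_self_sqrt (by norm_num)]; norm_num
  have h0 : ((√2 : ℝ) : ℂ) ≠ 0 := by
    rw [Complex.ofReal_ne_zero]; positivity
  refine ⟨?_, ?_, ?_, ?_⟩
  · unfold al
    rw [norm_div, Complex.norm_I, Complex.norm_real, Real.norm_eq_abs, abs_of_nonneg (Real.sqrt_nonneg _),
      div_le_one (by positivity)]
    exact Real.one_le_sqrt.mpr (by norm_num)
  · unfold al
    rw [div_mul_div_comm, h2, Complex.I_mul_I]; norm_num
  · unfold al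
    rw [map_div₀, Complex.conj_I, Complex.conj_ofReal, neg_div]
  · unfold al
    exact div_ne_zero Complex.I_ne_zero h0

/-- `a - α` is invertible for `a` self-adjoint and the Cayley transform is a contraction -/
theorem cay_facts (a : H →L[ℂ] H) (ha : IsSelfAdjoint a) :
    IsUnit (a - al • (1 : H →L[ℂ] H)) ∧ ‖cay a‖ ≤ 1 := by
  have hal : al ∉ spectrum ℂ a := by
    intro h
    have h1 := ha.mem_spectrum_eq_re h
    have h2 : al * al = -(1/2) := al_facts.2.1
    rw [h1] at h2
    have h3 : ((al.re * al.re : ℝ) : ℂ) = ((-(1/2) : ℝ) : ℂ) := by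
      push_cast; exact_mod_cast h2
    have h4 : al.re * al.re = -(1/2) := by exact_mod_cast h3
    nlinarith [mul_self_nonneg al.re]
  have hu0 : IsUnit (algebraMap ℂ (H →L[ℂ] H) al - a) := spectrum.notMem_iff.mp hal
  have hu : IsUnit (a - al • (1 : H →L[ℂ] H)) := by
    have := hu0.neg
    rw [neg_sub, Algebra.algebraMap_eq_smul_one] at this
    exact this
  refine ⟨hu, ?_⟩
  set b : H →L[ℂ] H := a - al • (1 : H →L[ℂ] H) with hb
  have hsb : star b = a + al • (1 : H →L[ℂ] H) := by
    have h3 : star al = -al := al_facts.2.2.1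
    rw [hb, star_sub, star_smul, star_one, ha.star_eq, h3, neg_smul, sub_neg_eq_add]
  have hbu : b * Ring.inverse b = 1 := Ring.mul_inverse_cancel b hu
  have hcomm : b * star b = star b * b := by
    rw [hsb, hb]
    have hc : (al • (1 : H →L[ℂ] H)) * a = a * (al • (1 : H →L[ℂ] H)) := by
      rw [smul_mul_assoc, mul_smul_comm, one_mul, mul_one]
    simp only [sub_mul, mul_add, add_mul, mul_sub, hc]
    abel
  have hcay : cay a = star b * Ring.inverse b := by
    unfold cay; rw [← hb, hsb]
  have h1 : star (cay a) * cay a = 1 := by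
    rw [hcay, star_mul, star_star, mul_assoc, ← mul_assoc b, hcomm, mul_assoc, hbu, mul_one,
      ← star_mul, hbu, star_one]
  have h2 : ‖cay a‖ * ‖cay a‖ = ‖(1 : H →L[ℂ] H)‖ := by
    rw [← CStarRing.norm_star_mul_self, h1]
  have h3 : ‖(1 : H →L[ℂ] H)‖ ≤ 1 := ContinuousLinearMap.norm_id_le
  nlinarith [norm_nonneg (cay a)]

end cay_facts

alias cay_facts := cay_facts.cay_facts

end Pool.Agent.Helper38.FE.U
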