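import Pool.Agent.Helper819.FEU.Defs
import Pool.Agent.Helper819.FEU.Hm_sa

set_option autoImplicit false
set_option linter.unusedVariables false
set_option linter.unusedSectionVars false
set_option linter.dupNamespace false

open MeasureTheory Filter Topology ProbabilityTheory
open scoped InnerProductSpace ENNReal

namespace Pool.Agent.Helper38.FE.U

-- BEGIN TARGET (everything above is GIVEN, keep it unchanged; prove the theorem below; auxiliary lemmas go inside this namespace, before it)
namespace good_meas

/-- the good event is closed, hence measurable -/
theorem good_meas {ι : Type} [Fintype ι] [DecidableEq ι] (N : ℕ) (L : ℝ) :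
    MeasurableSet (good (ι := ι) N L) ∧ ∀ i, Continuous fun x => Xm (ι := ι) N x i := by
  have hc : ∀ i, Continuous fun x : EuclideanSpace ℝ (ι × Fin N × Fin N) => Xm (ι := ι) N x i := by
    intro i
    unfold Xm
    refine (Hm_sa N).2.2.2.comp ?_
    refine (PiLp.continuous_toLp 2 _).comp (continuous_pi fun p => ?_)
    fun_prop
  refine ⟨?_, hc⟩
  have he : good (ι := ι) N L = ⋂ i, {x | ‖Xm (ι := ι) N x i‖ ≤ L} := by
    ext x
    rw [Set.mem_iInter]
    exact Iff.rfl
  rw [he]
  exact (isClosed_iInter fun i => isClosed_le (hc i).norm continuous_const).measurableSet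

end good_meas

alias good_meas := good_meas.good_meas

end Pool.Agent.Helper38.FE.U
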