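import Pool.Agent.Helper819.FEU.Defs
import Pool.Agent.Helper819.FEU.Hm_sa
import Pool.Agent.Helper819.FEU.tr_facts
import Pool.Agent.Helper819.FEU.cay_facts
import Pool.Agent.Helper819.FEU.good_meas

set_option autoImplicit false
set_option linter.unusedVariables false
set_option linter.unusedSectionVars false
set_option linter.dupNamespace false

open MeasureTheory Filter Topology ProbabilityTheory
open scoped InnerProductSpace ENNReal

namespace Pool.Agent.Helper38.FE.U

-- BEGIN TARGET (everything above is GIVEN, keep it unchanged; prove the theorem below; auxiliary lemmas go inside this namespace, before it)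
namespace Rep_tendsto

theorem Xm_sa {ι : Type} [Fintype ι] (N : ℕ) (x : EuclideanSpace ℝ (ι × Fin N × Fin N))
    (i : ι) : IsSelfAdjoint (Xm N x i) := (Hm_sa N).1 _

theorem evL_cont {ι : Type} [Fintype ι] [DecidableEq ι] (N : ℕ) (l : Lt ι) :
    Continuous (fun x : EuclideanSpace ℝ (ι × Fin N × Fin N) => evL (Xm N x) l) := by
  have hc : ∀ i, Continuous (fun x : EuclideanSpace ℝ (ι × Fin N × Fin N) => cay (Xm N x i)) := by
    intro i
    have hX := (good_meas (ι := ι) N 0).2 i
    unfold cay
    refine Continuous.mul (hX.add continuous_const) ?_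
    rw [continuous_iff_continuousAt]
    intro x
    obtain ⟨u, hu⟩ := (cay_facts (Xm N x i) (Xm_sa N x i)).1
    have h1 : ContinuousAt Ring.inverse (Xm N x i - al • (1 : BN N)) := by
      rw [← hu]; exact NormedRing.inverse_continuousAt u
    have h2 : ContinuousAt (fun x : EuclideanSpace ℝ (ι × Fin N × Fin N) =>
        Xm N x i - al • (1 : BN N)) x := (hX.sub continuous_const).continuousAt
    exact ContinuousAt.comp (f := fun x : EuclideanSpace ℝ (ι × Fin N × Fin N) =>
        Xm N x i - al • (1 : BN N)) h1 h2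
  cases l with
  | X i => exact (good_meas (ι := ι) N 0).2 i
  | U i => exact hc i
  | V i => exact continuous_star.comp (hc i)

theorem evW_cont {ι : Type} [Fintype ι] [DecidableEq ι] (N : ℕ) (w : List (Lt ι)) :
    Continuous (fun x : EuclideanSpace ℝ (ι × Fin N × Fin N) => evW (Xm N x) w) := by
  induction w with
  | nil => simpa [evW] using continuous_const
  | cons l w ih =>
    have : (fun x : EuclideanSpace ℝ (ι × Fin N × Fin N) => evW (Xm N x) (l :: w)) =
        fun x => evL (Xm N x) l * evW (Xm N x) w := by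
      funext x; simp [evW]
    rw [this]
    exact (evL_cont N l).mul ih

theorem evW_bd {ι : Type} [Fintype ι] [DecidableEq ι] (N : ℕ) (L : ℝ) (hL2 : 2 ≤ L)
    (x : EuclideanSpace ℝ (ι × Fin N × Fin N)) (hx : x ∈ good (ι := ι) N L)
    (w : List (Lt ι)) : ‖evW (Xm N x) w‖ ≤ L ^ w.length := by
  have hl : ∀ l : Lt ι, ‖evL (Xm N x) l‖ ≤ L := by
    intro l
    cases l with
    | X i => exact hx i
    | U i =>
      have := (cay_facts (Xm N x i) (Xm_sa N x i)).2
      show ‖cay (Xm N x i)‖ ≤ L
      linarith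
    | V i =>
      have := (cay_facts (Xm N x i) (Xm_sa N x i)).2
      show ‖star (cay (Xm N x i))‖ ≤ L
      have h2 : ‖star (cay (Xm N x i))‖ = ‖cay (Xm N x i)‖ := by
        rw [ContinuousLinearMap.star_eq_adjoint]
        exact LinearIsometryEquiv.norm_map ContinuousLinearMap.adjoint (cay (Xm N x i))
      linarith
  induction w with
  | nil =>
    simp only [evW, List.map_nil, List.prod_nil, List.length_nil, pow_zero]
    exact ContinuousLinearMap.norm_id_le
  | cons l w ih =>
    have : evW (Xm N x) (l :: w) = evL (Xm N x) l * evW (Xm N x) w := by simp [evW]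
    rw [this, List.length_cons, pow_succ']
    exact (norm_mul_le _ _).trans (mul_le_mul (hl l) ih (norm_nonneg _) (by linarith))

theorem tr_sum (N : ℕ) {α : Type*} (s : Finset α) (f : α → ℂ) (g : α → BN N) :
    tr (∑ w ∈ s, f w • g w) = ∑ w ∈ s, f w * tr (g w) := by
  classical
  induction s using Finset.induction_on with
  | empty =>
    have := (tr_facts N).2.1 0 (0 : BN N)
    have h0 : (0 : ℂ) • (0 : BN N) = 0 := by ext; simp
    rw [zero_mul, h0] at this
    rw [Finset.sum_empty, Finset.sum_empty, this]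
  | insert a s ha ih =>
    rw [Finset.sum_insert ha, Finset.sum_insert ha, (tr_facts N).1, (tr_facts N).2.1, ih]

/-- convergence of traces of representable families -/
theorem Rep_tendsto {ι H : Type} [Fintype ι] [DecidableEq ι] [NormedAddCommGroup H]
    [InnerProductSpace ℂ H] [CompleteSpace H] (S : FS ι H)
    (T : ∀ N : ℕ, EuclideanSpace ℝ (ι × Fin N × Fin N) → BN N) (a : H →L[ℂ] H) (h : Rep S T a)
    (L : ℝ) (hL2 : 2 ≤ L) (hL : Tendsto (fun N : ℕ =>
      (stdGaussian (EuclideanSpace ℝ (ι × Fin (N + 1) × Fin (N + 1)))).real (good (N + 1) L)ᶜ)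
      atTop (𝓝 0)) :
    (∀ N : ℕ, IntegrableOn (fun x => tr (T (N + 1) x)) (good (N + 1) L)
      (stdGaussian (EuclideanSpace ℝ (ι × Fin (N + 1) × Fin (N + 1))))) ∧
    Tendsto (fun N : ℕ => ∫ x in good (N + 1) L, tr (T (N + 1) x)
      ∂(stdGaussian (EuclideanSpace ℝ (ι × Fin (N + 1) × Fin (N + 1)))))
      atTop (𝓝 (tau S.Ω a)) := by
  obtain ⟨z, hz, ha⟩ := h
  have hI : ∀ (N : ℕ) (w : List (Lt ι)), IntegrableOn (fun x => tr (evW (Xm (N + 1) x) w))
      (good (N + 1) L) (stdGaussian (EuclideanSpace ℝ (ι × Fin (N + 1) × Fin (N + 1)))) := by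
    intro N w
    refine Measure.integrableOn_of_bounded (M := L ^ w.length) (measure_ne_top _ _) ?_ ?_
    · exact ((tr_facts (N + 1)).2.2.2.comp (evW_cont (N + 1) w)).aestronglyMeasurable
    · rw [ae_restrict_iff' (good_meas (ι := ι) (N + 1) L).1]
      exact Eventually.of_forall fun x hx =>
        ((tr_facts (N + 1)).2.2.1 _).trans (evW_bd (N + 1) L hL2 x hx w)
  have hT : ∀ N : ℕ, (fun x => tr (T (N + 1) x)) =
      fun x => ∑ w ∈ z.support, z w * tr (evW (Xm (N + 1) x) w) := by
    intro N
    funext x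
    rw [hz, Finsupp.sum, tr_sum]
  refine ⟨fun N => ?_, ?_⟩
  · rw [hT N]
    exact integrable_finsetSum _ fun w _ => (hI N w).const_mul (z w)
  · have e1 : ∀ N : ℕ, ∫ x in good (N + 1) L, tr (T (N + 1) x)
        ∂(stdGaussian (EuclideanSpace ℝ (ι × Fin (N + 1) × Fin (N + 1)))) =
        ∑ w ∈ z.support, z w * ∫ x in good (N + 1) L, tr (evW (Xm (N + 1) x) w)
        ∂(stdGaussian (EuclideanSpace ℝ (ι × Fin (N + 1) × Fin (N + 1)))) := by
      intro N
      rw [hT N, integral_finsetSum _ fun w _ => (hI N w).const_mul (z w)]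
      exact Finset.sum_congr rfl fun w _ => integral_const_mul _ _
    simp_rw [e1]
    have e2 : tau S.Ω a = ∑ w ∈ z.support, z w * tau S.Ω (evW S.s w) := by
      rw [ha, Finsupp.sum]
      simp only [tau, sum_apply, smul_apply, inner_sum, inner_smul_right]
    rw [e2]
    exact tendsto_finsetSum _ fun w _ => (gue_conv S L hL2 hL w).const_mul (z w)

end Rep_tendsto

alias Rep_tendsto := Rep_tendsto.Rep_tendsto

end Pool.Agent.Helper38.FE.U
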