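import Pool.Agent.Helper819.FEU.Defs
import Pool.Agent.Helper819.FEU.cay_facts

set_option autoImplicit false
set_option linter.unusedVariables false
set_option linter.unusedSectionVars false
set_option linter.dupNamespace false

open MeasureTheory Filter Topology ProbabilityTheory
open scoped InnerProductSpace ENNReal

namespace Pool.Agent.Helper38.FE.U

-- BEGIN TARGET (everything above is GIVEN, keep it unchanged; prove the theorem below; auxiliary lemmas go inside this namespace, before it)
namespace norm_Fb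

/-- `‖F_b(y)‖ ≤ 2` and `F_b(y)` is self-adjoint -/
theorem norm_Fb {H : Type} [NormedAddCommGroup H] [InnerProductSpace ℂ H] [CompleteSpace H]
    (b : List (Fin 3)) (y : Fin 3 → (H →L[ℂ] H)) (hy : ∀ i, IsSelfAdjoint (y i)) :
    ‖Fb b y‖ ≤ 2 ∧ IsSelfAdjoint (Fb b y) := by
  have h1 : ‖Wd b y‖ ≤ 1 := by
    unfold Wd
    induction b with
    | nil =>
      rw [List.map_nil, List.prod_nil]
      exact ContinuousLinearMap.norm_id_le
    | cons i l ih =>
      rw [List.map_cons, List.prod_cons]
      calc ‖cay (y i) * (l.map fun i => cay (y i)).prod‖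
          ≤ ‖cay (y i)‖ * ‖(l.map fun i => cay (y i)).prod‖ := norm_mul_le _ _
        _ ≤ 1 * 1 := mul_le_mul (cay_facts (y i) (hy i)).2 ih (norm_nonneg _) zero_le_one
        _ = 1 := one_mul 1
  constructor
  · unfold Fb
    calc ‖Wd b y + star (Wd b y)‖ ≤ ‖Wd b y‖ + ‖star (Wd b y)‖ := norm_add_le _ _
      _ = ‖Wd b y‖ + ‖Wd b y‖ := by rw [norm_star]
      _ ≤ 2 := by linarith
  · unfold Fb
    rw [isSelfAdjoint_iff, star_add, star_star, add_comm]

end norm_Fb

alias norm_Fb := norm_Fb.norm_Fb

end Pool.Agent.Helper38.FE.U
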