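import Pool.Agent.Helper819.FEU.Defs
import Pool.Agent.Helper819.FEU.Hm_sa
import Pool.Agent.Helper819.FEU.Hm_crd
import Pool.Agent.Helper819.FEU.norm_Fb

set_option autoImplicit false
set_option linter.unusedVariables false
set_option linter.unusedSectionVars false
set_option linter.dupNamespace false

open MeasureTheory Filter Topology ProbabilityTheory
open scoped InnerProductSpace ENNReal

namespace Pool.Agent.Helper38.FE.U

-- BEGIN TARGET (everything above is GIVEN, keep it unchanged; prove the theorem below; auxiliary lemmas go inside this namespace, before it)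
namespace YN_eq

lemma Hm_zero (N : ℕ) : Hm N 0 = 0 := by
  have h := (Hm_sa N).2.1 0 0
  rw [add_zero] at h
  exact left_eq_add.1 h

lemma Hm_sum (N K : ℕ) (r : ℕ → ℝ) (a : ℕ → EuclideanSpace ℝ (Fin N × Fin N)) :
    Hm N (∑ j ∈ Finset.range K, r j • a j) =
      ∑ j ∈ Finset.range K, ((r j : ℝ) : ℂ) • Hm N (a j) := by
  induction K with
  | zero =>
    rw [Finset.sum_range_zero, Finset.sum_range_zero]
    exact Hm_zero N
  | succ K ih =>
    rw [Finset.sum_range_succ, Finset.sum_range_succ, (Hm_sa N).2.1, (Hm_sa N).2.2.1, ih]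

lemma Xm_add_smul {ι : Type} [Fintype ι] (N : ℕ) (a b : EuclideanSpace ℝ (ι × Fin N × Fin N))
    (c : ℝ) (i : ι) : Xm N (a + c • b) i = Xm N a i + ((c : ℝ) : ℂ) • Xm N b i := by
  unfold Xm
  rw [← (Hm_sa N).2.2.1, ← (Hm_sa N).2.1]
  rfl

/-- matrices of the noisy observation -/
theorem YN_eq (r : ℕ → ℝ) (b : ℕ → List (Fin 3)) (K : ℕ) (u : ℝ) (N : ℕ) (hN : 0 < N)
    (x : EuclideanSpace ℝ (I0 × Fin N × Fin N)) :
    Yt N (obs (fK r b K N) u (pr3 N x)) = YN r b K u N x := by
  funext i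
  refine Fin.lastCases ?_ (fun i => ?_) i
  · unfold Yt YN
    rw [Fin.snoc_last, Fin.snoc_last]
    unfold obs
    change Hm N (fK r b K N (pr3 N x).1 + √u • (pr3 N x).2.2) = _
    rw [(Hm_sa N).2.1, (Hm_sa N).2.2.1]
    have h1 : Hm N (fK r b K N (pr3 N x).1) = xK r b K fun i : Fin 3 => Xm N x (Sum.inl i) := by
      unfold fK xK
      rw [Hm_sum]
      refine Finset.sum_congr rfl fun j _ => ?_
      unfold Fc
      have h2 : IsSelfAdjoint (Fb (b j) (Xm N (pr3 N x).1)) :=
        (norm_Fb (b j) (Xm N (pr3 N x).1) fun i => (Hm_sa N).1 _).2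
      rw [(Hm_crd N hN).1 _ h2]
      rfl
    rw [h1]
    rfl
  · unfold Yt YN
    rw [Fin.snoc_castSucc, Fin.snoc_castSucc]
    unfold obs
    change Xm N ((pr3 N x).1 + √u • (pr3 N x).2.1) i = _
    rw [Xm_add_smul]
    rfl

end YN_eq

alias YN_eq := YN_eq.YN_eq

end Pool.Agent.Helper38.FE.U
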