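import Pool.Agent.Helper819.FEU.Defs
import Pool.Agent.Helper819.FEU.Hm_sa
import Pool.Agent.Helper819.FEU.norm_Fb

set_option autoImplicit false
set_option linter.unusedVariables false
set_option linter.unusedSectionVars false
set_option linter.dupNamespace false

open MeasureTheory Filter Topology ProbabilityTheory
open scoped InnerProductSpace ENNReal

namespace Pool.Agent.Helper38.FE.U

-- BEGIN TARGET (everything above is GIVEN, keep it unchanged; prove the theorem below; auxiliary lemmas go inside this namespace, before it)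
namespace YN_norm

theorem Xm_sa {ι : Type} [Fintype ι] (N : ℕ) (x : EuclideanSpace ℝ (ι × Fin N × Fin N)) (i : ι) :
    IsSelfAdjoint (Xm N x i) := (Hm_sa N).1 _

theorem rsmul_sa {H : Type} [NormedAddCommGroup H] [InnerProductSpace ℂ H] [CompleteSpace H]
    (c : ℝ) {a : H →L[ℂ] H} (ha : IsSelfAdjoint a) : IsSelfAdjoint (((c : ℝ) : ℂ) • a) := by
  have hc : IsSelfAdjoint ((c : ℝ) : ℂ) := by
    rw [isSelfAdjoint_iff]
    exact Complex.conj_ofReal c
  exact hc.smul ha

theorem xK_sa (r : ℕ → ℝ) (b : ℕ → List (Fin 3)) (K : ℕ) {H : Type} [NormedAddCommGroup H]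
    [InnerProductSpace ℂ H] [CompleteSpace H] (y : Fin 3 → (H →L[ℂ] H))
    (hy : ∀ i, IsSelfAdjoint (y i)) : IsSelfAdjoint (xK r b K y) := by
  unfold xK
  rw [isSelfAdjoint_iff, star_sum]
  refine Finset.sum_congr rfl fun j _ => ?_
  exact (rsmul_sa (r j) (norm_Fb (b j) y hy).2).star_eq

theorem xK_norm (r : ℕ → ℝ) (b : ℕ → List (Fin 3)) (K : ℕ) {H : Type} [NormedAddCommGroup H]
    [InnerProductSpace ℂ H] [CompleteSpace H] (y : Fin 3 → (H →L[ℂ] H))
    (hy : ∀ i, IsSelfAdjoint (y i)) : ‖xK r b K y‖ ≤ 2 * ∑ j ∈ Finset.range K, |r j| := by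
  unfold xK
  refine (norm_sum_le _ _).trans ?_
  rw [Finset.mul_sum]
  refine Finset.sum_le_sum fun j _ => ?_
  rw [norm_smul, Complex.norm_real, Real.norm_eq_abs]
  have h1 := (norm_Fb (b j) y hy).1
  nlinarith [abs_nonneg (r j)]

/-- on the good event all matrices are bounded; they are always self-adjoint -/
theorem YN_norm (r : ℕ → ℝ) (b : ℕ → List (Fin 3)) (K : ℕ) (u : ℝ) (hu : 0 ≤ u) (hu1 : u ≤ 1)
    (N : ℕ) (L L' : ℝ) (hL : 0 ≤ L)
    (hL' : 2 * L + 2 * ∑ j ∈ Finset.range K, |r j| ≤ L')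
    (x : EuclideanSpace ℝ (I0 × Fin N × Fin N)) :
    (∀ i, IsSelfAdjoint (YN r b K u N x i)) ∧
    (x ∈ good N L → ∀ i, ‖YN r b K u N x i‖ ≤ L') := by
  have hS0 : 0 ≤ ∑ j ∈ Finset.range K, |r j| := Finset.sum_nonneg fun j _ => abs_nonneg _
  have hb : ∀ i : Fin 3, IsSelfAdjoint (Xm N x (Sum.inl i)) := fun i => Xm_sa N x _
  constructor
  · intro i
    unfold YN
    refine IsSelfAdjoint.add ?_ (rsmul_sa _ (Xm_sa N x _))
    refine Fin.lastCases ?_ (fun i => ?_) i
    · rw [Fin.snoc_last]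
      exact xK_sa r b K _ hb
    · rw [Fin.snoc_castSucc]
      exact hb i
  · intro hx i
    unfold YN
    refine (norm_add_le _ _).trans ?_
    have h1 : ‖((√u : ℝ) : ℂ) • Xm N x (Sum.inr (Sum.inl i))‖ ≤ L := by
      rw [norm_smul, Complex.norm_real, Real.norm_eq_abs, abs_of_nonneg (Real.sqrt_nonneg u)]
      have h2 : √u ≤ 1 := Real.sqrt_le_one.2 hu1
      have h3 := hx (Sum.inr (Sum.inl i))
      have h4 := norm_nonneg (Xm N x (Sum.inr (Sum.inl i)))
      nlinarith [Real.sqrt_nonneg u]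
    have h2 : ‖(Fin.snoc (α := fun _ => BN N) (fun i : Fin 3 => Xm N x (Sum.inl i))
        (xK r b K fun i : Fin 3 => Xm N x (Sum.inl i)) : Fin 4 → BN N) i‖ ≤
        L + 2 * ∑ j ∈ Finset.range K, |r j| := by
      clear h1
      refine Fin.lastCases ?_ (fun i => ?_) i
      · rw [Fin.snoc_last]
        have := xK_norm r b K (fun i : Fin 3 => Xm N x (Sum.inl i)) hb
        linarith
      · rw [Fin.snoc_castSucc]
        have := hx (Sum.inl i)
        linarith
    linarith

end YN_norm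

alias YN_norm := YN_norm.YN_norm

end Pool.Agent.Helper38.FE.U
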