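import Pool.Agent.Helper819.FEU.Defs

set_option autoImplicit false
set_option linter.unusedVariables false
set_option linter.unusedSectionVars false
set_option linter.dupNamespace false

open MeasureTheory Filter Topology ProbabilityTheory
open scoped InnerProductSpace ENNReal

namespace Pool.Agent.Helper38.FE.U

-- BEGIN TARGET (everything above is GIVEN, keep it unchanged; prove the theorem below; auxiliary lemmas go inside this namespace, before it)
namespace map_pr3

/-- reindexing map -/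
noncomputable def cmp {ι κ : Type} [Fintype ι] [Fintype κ] (f : κ → ι) :
    EuclideanSpace ℝ ι →L[ℝ] EuclideanSpace ℝ κ :=
  LinearMap.toContinuousLinearMap
    { toFun := fun x => WithLp.toLp 2 fun k => x (f k)
      map_add' := fun x y => by ext k; simp
      map_smul' := fun c x => by ext k; simp }

theorem cmp_apply {ι κ : Type} [Fintype ι] [Fintype κ] (f : κ → ι) (x : EuclideanSpace ℝ ι) :
    cmp f x = WithLp.toLp 2 fun k => x (f k) := rfl

theorem cmp_single {ι κ : Type} [Fintype ι] [Fintype κ] [DecidableEq ι] [DecidableEq κ]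
    (f : κ → ι) (hf : Function.Injective f) (k : κ) :
    cmp f (EuclideanSpace.single (f k) 1) = EuclideanSpace.single k (1 : ℝ) := by
  ext k'
  rw [cmp_apply]
  simp only [PiLp.toLp_apply, EuclideanSpace.single_apply]
  by_cases h : k' = k
  · subst h; simp
  · rw [if_neg h, if_neg (fun h' => h (hf h'))]

theorem cmp_single_zero {ι κ : Type} [Fintype ι] [Fintype κ] [DecidableEq ι]
    (f : κ → ι) (i : ι) (hi : ∀ k, f k ≠ i) :
    cmp f (EuclideanSpace.single i (1 : ℝ)) = 0 := by
  ext k'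
  rw [cmp_apply]
  simp only [PiLp.toLp_apply, EuclideanSpace.single_apply]
  rw [if_neg (hi k')]
  rfl

theorem norm_dual_single {ι : Type} [Fintype ι] [DecidableEq ι]
    (L : StrongDual ℝ (EuclideanSpace ℝ ι)) :
    ‖L‖ ^ 2 = ∑ i, L (EuclideanSpace.single i 1) ^ 2 := by
  rw [(EuclideanSpace.basisFun ι ℝ).norm_dual L]
  simp [EuclideanSpace.basisFun_apply]

/-- `pr3` as a continuous linear map -/
noncomputable def P3 (N : ℕ) : EuclideanSpace ℝ (I0 × Fin N × Fin N) →L[ℝ]
    EuclideanSpace ℝ (Fin 3 × Fin N × Fin N) × EuclideanSpace ℝ (Fin 3 × Fin N × Fin N) ×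
      EuclideanSpace ℝ (Fin N × Fin N) :=
  (cmp fun p : Fin 3 × Fin N × Fin N => ((Sum.inl p.1, p.2) : I0 × Fin N × Fin N)).prod
    ((cmp fun p : Fin 3 × Fin N × Fin N =>
      ((Sum.inr (Sum.inl p.1.castSucc), p.2) : I0 × Fin N × Fin N)).prod
    (cmp fun p : Fin N × Fin N => ((Sum.inr (Sum.inl (Fin.last 3)), p) : I0 × Fin N × Fin N)))

theorem P3_eq (N : ℕ) : (⇑(P3 N)) = pr3 N := rfl

theorem P3_a (N : ℕ) (i : Fin 3) (p : Fin N × Fin N) :
    P3 N (EuclideanSpace.single (Sum.inl i, p) 1) = (EuclideanSpace.single (i, p) 1, 0, 0) := by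
  refine Prod.ext ?_ (Prod.ext ?_ ?_)
  · exact cmp_single (fun p : Fin 3 × Fin N × Fin N => ((Sum.inl p.1, p.2) : I0 × Fin N × Fin N))
      (by
        rintro ⟨a, b⟩ ⟨c, d⟩ h
        simpa using h) (i, p)
  · exact cmp_single_zero _ _ (by rintro k h; simp at h)
  · exact cmp_single_zero _ _ (by rintro k h; simp at h)

theorem P3_b (N : ℕ) (i : Fin 3) (p : Fin N × Fin N) :
    P3 N (EuclideanSpace.single (Sum.inr (Sum.inl i.castSucc), p) 1) =
      (0, EuclideanSpace.single (i, p) 1, 0) := by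
  refine Prod.ext ?_ (Prod.ext ?_ ?_)
  · exact cmp_single_zero _ _ (by rintro k h; simp at h)
  · exact cmp_single (fun p : Fin 3 × Fin N × Fin N =>
        ((Sum.inr (Sum.inl p.1.castSucc), p.2) : I0 × Fin N × Fin N))
      (by
        rintro ⟨a, b⟩ ⟨c, d⟩ h
        simpa using h) (i, p)
  · refine cmp_single_zero _ _ ?_
    rintro k h
    simp only [Prod.mk.injEq, Sum.inr.injEq, Sum.inl.injEq] at h
    exact absurd h.1.symm (Fin.castSucc_lt_last i).ne

theorem P3_c (N : ℕ) (p : Fin N × Fin N) :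
    P3 N (EuclideanSpace.single (Sum.inr (Sum.inl (Fin.last 3)), p) 1) =
      (0, 0, EuclideanSpace.single p 1) := by
  refine Prod.ext ?_ (Prod.ext ?_ ?_)
  · exact cmp_single_zero _ _ (by rintro k h; simp at h)
  · refine cmp_single_zero _ _ ?_
    rintro k h
    simp only [Prod.mk.injEq, Sum.inr.injEq, Sum.inl.injEq] at h
    exact absurd h.1 (Fin.castSucc_lt_last k.1).ne
  · exact cmp_single (fun p : Fin N × Fin N =>
        ((Sum.inr (Sum.inl (Fin.last 3)), p) : I0 × Fin N × Fin N))
      (by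
        rintro a c h
        simpa using h) p

theorem P3_d (N : ℕ) (i : Fin 4) (p : Fin N × Fin N) :
    P3 N (EuclideanSpace.single (Sum.inr (Sum.inr i), p) 1) = 0 := by
  refine Prod.ext ?_ (Prod.ext ?_ ?_)
  · exact cmp_single_zero _ _ (by rintro k h; simp at h)
  · exact cmp_single_zero _ _ (by rintro k h; simp at h)
  · exact cmp_single_zero _ _ (by rintro k h; simp at h)

/-- the law of `(X, G_b, G_l)` -/
theorem map_pr3 (N : ℕ) : Measurable (pr3 N) ∧
    (stdGaussian (EuclideanSpace ℝ (I0 × Fin N × Fin N))).map (pr3 N) =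
      gam3 (Fin 3 × Fin N × Fin N) (Fin N × Fin N) := by
  have hm : Measurable (pr3 N) := by
    rw [← P3_eq]
    exact (P3 N).continuous.measurable
  refine ⟨hm, ?_⟩
  rw [← P3_eq]
  have hprob : IsProbabilityMeasure
      ((stdGaussian (EuclideanSpace ℝ (I0 × Fin N × Fin N))).map (P3 N)) :=
    Measure.isProbabilityMeasure_map (P3 N).continuous.measurable.aemeasurable
  have hprob2 : IsProbabilityMeasure (gam3 (Fin 3 × Fin N × Fin N) (Fin N × Fin N)) := by
    unfold gam3; infer_instance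
  apply Measure.ext_of_charFunDual
  ext L
  rw [charFunDual_map, charFunDual_stdGaussian]
  unfold gam3
  rw [charFunDual_prod, charFunDual_prod, charFunDual_stdGaussian, charFunDual_stdGaussian,
    charFunDual_stdGaussian, ← Complex.exp_add, ← Complex.exp_add]
  congr 1
  have key : ‖L.comp (P3 N)‖ ^ 2 =
      ‖L.comp (ContinuousLinearMap.inl ℝ (EuclideanSpace ℝ (Fin 3 × Fin N × Fin N))
        (EuclideanSpace ℝ (Fin 3 × Fin N × Fin N) × EuclideanSpace ℝ (Fin N × Fin N)))‖ ^ 2 +
      (‖(L.comp (ContinuousLinearMap.inr ℝ (EuclideanSpace ℝ (Fin 3 × Fin N × Fin N))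
        (EuclideanSpace ℝ (Fin 3 × Fin N × Fin N) × EuclideanSpace ℝ (Fin N × Fin N)))).comp
        (ContinuousLinearMap.inl ℝ (EuclideanSpace ℝ (Fin 3 × Fin N × Fin N))
          (EuclideanSpace ℝ (Fin N × Fin N)))‖ ^ 2 +
      ‖(L.comp (ContinuousLinearMap.inr ℝ (EuclideanSpace ℝ (Fin 3 × Fin N × Fin N))
        (EuclideanSpace ℝ (Fin 3 × Fin N × Fin N) × EuclideanSpace ℝ (Fin N × Fin N)))).comp
        (ContinuousLinearMap.inr ℝ (EuclideanSpace ℝ (Fin 3 × Fin N × Fin N))
          (EuclideanSpace ℝ (Fin N × Fin N)))‖ ^ 2) := by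
    rw [norm_dual_single, norm_dual_single, norm_dual_single, norm_dual_single]
    rw [Fintype.sum_prod_type, Fintype.sum_sum_type, Fintype.sum_sum_type]
    rw [Fin.sum_univ_castSucc (n := 3)]
    simp only [ContinuousLinearMap.comp_apply, P3_a, P3_b, P3_c, P3_d, map_zero,
      ContinuousLinearMap.inl_apply, ContinuousLinearMap.inr_apply]
    rw [Fintype.sum_prod_type (f := fun x : Fin 3 × Fin N × Fin N =>
        L (EuclideanSpace.single x 1, 0) ^ 2),
      Fintype.sum_prod_type (f := fun x : Fin 3 × Fin N × Fin N =>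
        L (0, EuclideanSpace.single x 1, 0) ^ 2)]
    simp
    rfl
  rw [← Complex.ofReal_pow, key]
  push_cast
  ring

end map_pr3

alias map_pr3 := map_pr3.map_pr3

end Pool.Agent.Helper38.FE.U
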