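import Pool.Agent.Helper819.FEU.Defs

set_option autoImplicit false
set_option linter.unusedVariables false
set_option linter.unusedSectionVars false
set_option linter.dupNamespace false

open MeasureTheory Filter Topology ProbabilityTheory
open scoped InnerProductSpace ENNReal

namespace Pool.Agent.Helper38.FE.U

-- BEGIN TARGET (everything above is GIVEN, keep it unchanged; prove the theorem below; auxiliary lemmas go inside this namespace, before it)
namespace moment2

/-- one coordinate -/
theorem coord (I : Type) [Fintype I] (i : I) :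
    Integrable (fun x : EuclideanSpace ℝ I => x i ^ 2) (stdGaussian (EuclideanSpace ℝ I)) ∧
    ∫ x, x i ^ 2 ∂(stdGaussian (EuclideanSpace ℝ I)) = 1 := by
  classical
  obtain ⟨L, hL⟩ : ∃ L : StrongDual ℝ (EuclideanSpace ℝ I),
      L = innerSL ℝ (EuclideanSpace.single i (1 : ℝ)) := ⟨_, rfl⟩
  have hLx : ∀ x : EuclideanSpace ℝ I, L x = x i := by
    intro x
    rw [hL, innerSL_apply_apply, EuclideanSpace.inner_single_left]
    simp
  have hLn : ‖L‖ = 1 := by
    rw [hL, innerSL_apply_norm, EuclideanSpace.norm_single, norm_one]
  have hm : MemLp (fun x : EuclideanSpace ℝ I => L x) 2 (stdGaussian (EuclideanSpace ℝ I)) :=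
    L.comp_memLp' (IsGaussian.memLp_two_id (μ := stdGaussian (EuclideanSpace ℝ I)))
  have h1 : Integrable (fun x : EuclideanSpace ℝ I => x i ^ 2)
      (stdGaussian (EuclideanSpace ℝ I)) := by
    have := hm.integrable_sq
    simp only [hLx] at this
    exact this
  refine ⟨h1, ?_⟩
  have hv := variance_dual_stdGaussian L
  rw [variance_of_integral_eq_zero L.continuous.aemeasurable (integral_strongDual_stdGaussian L),
    hLn, one_pow] at hv
  simp only [Pi.pow_apply, hLx] at hv
  exact hv

/-- second moment of the standard Gaussian vector -/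
theorem moment2 (I : Type) [Fintype I] :
    Integrable (fun x : EuclideanSpace ℝ I => ‖x‖ ^ 2) (stdGaussian (EuclideanSpace ℝ I)) ∧
    ∫ x, ‖x‖ ^ 2 ∂(stdGaussian (EuclideanSpace ℝ I)) = Fintype.card I := by
  have e : (fun x : EuclideanSpace ℝ I => ‖x‖ ^ 2) = fun x => ∑ i, x i ^ 2 := by
    funext x
    exact EuclideanSpace.real_norm_sq_eq x
  rw [e]
  constructor
  · exact integrable_finsetSum _ fun i _ => (coord I i).1
  · rw [integral_finsetSum _ fun i _ => (coord I i).1]
    simp [(coord I _).2]

end moment2

alias moment2 := moment2.moment2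

end Pool.Agent.Helper38.FE.U
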