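import Pool.Agent.Helper819.FEU.Defs
import Pool.Agent.Helper819.FEU.map_pr3
import Pool.Agent.Helper819.FEU.moment2
import Pool.Agent.Helper819.FEU.PN_basic
import Pool.Agent.Helper819.FEU.good_meas

set_option autoImplicit false
set_option linter.unusedVariables false
set_option linter.unusedSectionVars false
set_option linter.dupNamespace false

open MeasureTheory Filter Topology ProbabilityTheory
open scoped InnerProductSpace ENNReal

namespace Pool.Agent.Helper38.FE.U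

-- BEGIN TARGET (everything above is GIVEN, keep it unchanged; prove the theorem below; auxiliary lemmas go inside this namespace, before it)
namespace bad_part

theorem bp_norm {α β : Type} [Fintype α] [Fintype β] (e : α → β) (he : Function.Injective e)
    (x : EuclideanSpace ℝ β) :
    ‖(WithLp.toLp 2 (fun p => x (e p)) : EuclideanSpace ℝ α)‖ ≤ ‖x‖ := by
  classical
  rw [EuclideanSpace.norm_eq, EuclideanSpace.norm_eq]
  apply Real.sqrt_le_sqrt
  have h1 : ∑ p, ‖x (e p)‖ ^ 2 = ∑ p ∈ Finset.univ.map ⟨e, he⟩, ‖x p‖ ^ 2 := by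
    rw [Finset.sum_map]
    rfl
  calc ∑ p, ‖(WithLp.toLp 2 (fun p => x (e p)) : EuclideanSpace ℝ α) p‖ ^ 2
      = ∑ p, ‖x (e p)‖ ^ 2 := rfl
    _ = ∑ p ∈ Finset.univ.map ⟨e, he⟩, ‖x p‖ ^ 2 := h1
    _ ≤ ∑ p, ‖x p‖ ^ 2 := Finset.sum_le_univ_sum_of_nonneg (fun p => by positivity)

theorem bp_bound (r : ℕ → ℝ) (b : ℕ → List (Fin 3)) (K : ℕ) (u : ℝ)
    (q : Fin 4 → (List (Fin 4) →₀ ℂ)) (L' : ℝ) (C0 : ℝ) (hC0 : 0 ≤ C0)
    (hP : ∀ N y, ‖(PN N q L' y).1‖ ≤ C0 * N ∧ ‖(PN N q L' y).2‖ ≤ C0 * N) (N : ℕ)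
    (x : EuclideanSpace ℝ (I0 × Fin N × Fin N)) :
    |integrand r b K u q L' N (pr3 N x)| ≤ 4 * C0 * N * ‖x‖ + 2 * C0 ^ 2 * (N : ℝ) ^ 2 := by
  unfold integrand
  obtain ⟨P, hPP⟩ : ∃ P, P = PN N q L' (obs (fK r b K N) u (pr3 N x)) := ⟨_, rfl⟩
  rw [← hPP]
  have hp := hP N (obs (fK r b K N) u (pr3 N x))
  rw [← hPP] at hp
  have hN : (0:ℝ) ≤ N := Nat.cast_nonneg N
  have hz1 : ‖(pr3 N x).2.1‖ ≤ ‖x‖ := by
    refine bp_norm (fun p : Fin 3 × Fin N × Fin N =>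
      ((Sum.inr (Sum.inl p.1.castSucc), p.2) : I0 × Fin N × Fin N)) ?_ x
    rintro ⟨a, b⟩ ⟨c, d⟩ h
    simp only [Prod.mk.injEq, Sum.inr.injEq, Sum.inl.injEq] at h
    exact Prod.ext (Fin.castSucc_injective _ h.1) h.2
  have hz2 : ‖(pr3 N x).2.2‖ ≤ ‖x‖ := by
    refine bp_norm (fun p : Fin N × Fin N =>
      ((Sum.inr (Sum.inl (Fin.last 3)), p) : I0 × Fin N × Fin N)) ?_ x
    intro p q h
    simp only [Prod.mk.injEq] at h
    exact h.2
  have h1 : |⟪(pr3 N x).2.1, P.1⟫_ℝ| ≤ ‖x‖ * (C0 * N) :=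
    (abs_real_inner_le_norm _ _).trans (mul_le_mul hz1 hp.1 (norm_nonneg _) (norm_nonneg _))
  have h2 : |⟪(pr3 N x).2.2, P.2⟫_ℝ| ≤ ‖x‖ * (C0 * N) :=
    (abs_real_inner_le_norm _ _).trans (mul_le_mul hz2 hp.2 (norm_nonneg _) (norm_nonneg _))
  have h3 : ‖P.1‖ ^ 2 ≤ (C0 * N) ^ 2 := pow_le_pow_left₀ (norm_nonneg _) hp.1 2
  have h4 : ‖P.2‖ ^ 2 ≤ (C0 * N) ^ 2 := pow_le_pow_left₀ (norm_nonneg _) hp.2 2
  have h5 : 0 ≤ ‖P.1‖ ^ 2 := by positivity
  have h6 : 0 ≤ ‖P.2‖ ^ 2 := by positivity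
  rw [abs_le] at h1 h2
  have h7 : (C0 * N) ^ 2 = C0 ^ 2 * (N : ℝ) ^ 2 := by ring
  have h8 : ‖x‖ * (C0 * N) = C0 * N * ‖x‖ := by ring
  rw [h7] at h3 h4
  rw [h8] at h1 h2
  have h9 : 0 ≤ C0 * N * ‖x‖ := by positivity
  rw [abs_le]
  constructor <;> nlinarith [h1.1, h1.2, h2.1, h2.2]

theorem bp_meas (r : ℕ → ℝ) (b : ℕ → List (Fin 3)) (K : ℕ) (u : ℝ)
    (q : Fin 4 → (List (Fin 4) →₀ ℂ)) (L' : ℝ) (N : ℕ) (hf : Measurable (fK r b K N)) :
    Measurable (fun x => integrand r b K u q L' N (pr3 N x)) := by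
  have h2 : Measurable (fun z => obs (fK r b K N) u z) := by
    unfold obs
    exact (measurable_fst.add (measurable_snd.fst.const_smul (√u))).prodMk
      ((hf.comp measurable_fst).add (measurable_snd.snd.const_smul (√u)))
  have h3 : Measurable (fun z => PN N q L' (obs (fK r b K N) u z)) := ((PN_basic q L').1 N).comp h2
  have h1 : Measurable (integrand r b K u q L' N) := by
    unfold integrand
    exact ((((measurable_snd.fst.inner h3.fst).add (measurable_snd.snd.inner h3.snd)).const_mul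
      2).sub (h3.fst.norm.pow_const 2)).sub (h3.snd.norm.pow_const 2)
  exact h1.comp (map_pr3 N).1

theorem bp_norm_int (I : Type) [Fintype I] :
    Integrable (fun x : EuclideanSpace ℝ I => ‖x‖) (stdGaussian (EuclideanSpace ℝ I)) := by
  refine Integrable.mono' ((integrable_const (1:ℝ)).add (moment2 I).1)
    continuous_norm.aestronglyMeasurable (Filter.Eventually.of_forall fun x => ?_)
  rw [norm_norm]
  show ‖x‖ ≤ 1 + ‖x‖ ^ 2
  nlinarith [sq_nonneg (‖x‖ - 1)]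

theorem bp_cs (I : Type) [Fintype I] (m : ℝ) (hm : 0 < m) (hI : (Fintype.card I : ℝ) ≤ 11 * m ^ 2)
    (B : Set (EuclideanSpace ℝ I)) (hB : MeasurableSet B) :
    ∫ x in B, ‖x‖ ∂(stdGaussian (EuclideanSpace ℝ I)) ≤
      6 * m * √((stdGaussian (EuclideanSpace ℝ I)).real B) := by
  obtain ⟨p, hp⟩ : ∃ p, p = (stdGaussian (EuclideanSpace ℝ I)).real B := ⟨_, rfl⟩
  have hp0 : 0 ≤ p := by rw [hp]; exact measureReal_nonneg
  rw [← hp]
  rcases hp0.eq_or_lt with h | h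
  · have h1 : (stdGaussian (EuclideanSpace ℝ I)) B = 0 := by
      rw [hp] at h
      exact (measureReal_eq_zero_iff (measure_ne_top _ _)).mp h.symm
    rw [setIntegral_measure_zero _ h1]
    positivity
  · have hs : 0 < √p := Real.sqrt_pos.mpr h
    have hss : √p * √p = p := Real.mul_self_sqrt hp0
    obtain ⟨s, hsd⟩ : ∃ s, s = m / √p := ⟨_, rfl⟩
    have hs0 : 0 < s := by rw [hsd]; positivity
    have h1 : ∀ x : EuclideanSpace ℝ I, ‖x‖ ≤ s / 2 + (1 / (2 * s)) * ‖x‖ ^ 2 := by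
      intro x
      have h2 : 0 ≤ (‖x‖ - s) ^ 2 / (2 * s) := by positivity
      have h3 : (‖x‖ - s) ^ 2 / (2 * s) = s / 2 + (1 / (2 * s)) * ‖x‖ ^ 2 - ‖x‖ := by
        field_simp
        ring
      linarith
    have hint := (moment2 I).1
    have h4 : ∫ x in B, ‖x‖ ∂(stdGaussian (EuclideanSpace ℝ I)) ≤
        ∫ x in B, (s / 2 + (1 / (2 * s)) * ‖x‖ ^ 2) ∂(stdGaussian (EuclideanSpace ℝ I)) :=
      setIntegral_mono (bp_norm_int I).integrableOn
        (((integrable_const _).add (hint.const_mul _)).integrableOn) h1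
    have h5 : ∫ x in B, (s / 2 + (1 / (2 * s)) * ‖x‖ ^ 2) ∂(stdGaussian (EuclideanSpace ℝ I)) =
        s / 2 * p + (1 / (2 * s)) * ∫ x in B, ‖x‖ ^ 2 ∂(stdGaussian (EuclideanSpace ℝ I)) := by
      rw [integral_add (integrable_const _).integrableOn (hint.const_mul _).integrableOn,
        setIntegral_const, integral_const_mul, ← hp, smul_eq_mul, mul_comm p]
    have h6 : ∫ x in B, ‖x‖ ^ 2 ∂(stdGaussian (EuclideanSpace ℝ I)) ≤ 11 * m ^ 2 := by
      have h7 := setIntegral_le_integral (s := B) hint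
        (Filter.Eventually.of_forall fun x => by positivity)
      rw [(moment2 I).2] at h7
      exact h7.trans hI
    have h8 : (1 / (2 * s)) * ∫ x in B, ‖x‖ ^ 2 ∂(stdGaussian (EuclideanSpace ℝ I)) ≤
        (1 / (2 * s)) * (11 * m ^ 2) := mul_le_mul_of_nonneg_left h6 (by positivity)
    have h9 : s / 2 * p + (1 / (2 * s)) * (11 * m ^ 2) = 6 * m * √p := by
      have h10 : s / 2 * p = m * √p / 2 := by
        calc s / 2 * p = s / 2 * (√p * √p) := by rw [hss]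
          _ = m * √p / 2 := by
              rw [hsd]
              field_simp
      have h11 : (1 / (2 * s)) * (11 * m ^ 2) = 11 * m * √p / 2 := by
        rw [hsd]
        field_simp
      rw [h10, h11]
      ring
    linarith

/-- the contribution of the bad event is negligible; integrability -/
theorem bad_part (r : ℕ → ℝ) (b : ℕ → List (Fin 3)) (K : ℕ) (u : ℝ)
    (q : Fin 4 → (List (Fin 4) →₀ ℂ)) (L' : ℝ)
    (hf : ∀ N : ℕ, Measurable (fK r b K (N + 1))) :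
    (∀ N : ℕ, Integrable (fun x => integrand r b K u q L' (N + 1) (pr3 (N + 1) x))
      (stdGaussian (EuclideanSpace ℝ (I0 × Fin (N + 1) × Fin (N + 1))))) ∧
    ∃ C : ℝ, 0 ≤ C ∧ ∀ (N : ℕ) (B : Set (EuclideanSpace ℝ (I0 × Fin (N + 1) × Fin (N + 1)))),
      MeasurableSet B →
      |∫ x in B, integrand r b K u q L' (N + 1) (pr3 (N + 1) x)
        ∂(stdGaussian (EuclideanSpace ℝ (I0 × Fin (N + 1) × Fin (N + 1))))| ≤
        ((N : ℝ) + 1) ^ 2 * (C * √((stdGaussian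
          (EuclideanSpace ℝ (I0 × Fin (N + 1) × Fin (N + 1)))).real B) +
          C * (stdGaussian (EuclideanSpace ℝ (I0 × Fin (N + 1) × Fin (N + 1)))).real B) := by
  obtain ⟨_, C0, hC0, hP⟩ := PN_basic q L'
  have hdom : ∀ N : ℕ, Integrable (fun x : EuclideanSpace ℝ (I0 × Fin (N + 1) × Fin (N + 1)) =>
      4 * C0 * ((N + 1 : ℕ) : ℝ) * ‖x‖ + 2 * C0 ^ 2 * ((N + 1 : ℕ) : ℝ) ^ 2)
      (stdGaussian (EuclideanSpace ℝ (I0 × Fin (N + 1) × Fin (N + 1)))) := fun N =>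
    ((bp_norm_int _).const_mul _).add (integrable_const _)
  refine ⟨fun N => ?_, 24 * C0 + 2 * C0 ^ 2, by positivity, fun N B hB => ?_⟩
  · refine Integrable.mono' (hdom N) (bp_meas r b K u q L' (N + 1) (hf N)).aestronglyMeasurable
      (Filter.Eventually.of_forall fun x => ?_)
    exact bp_bound r b K u q L' C0 hC0 hP (N + 1) x
  · have hN : (0:ℝ) < ((N + 1 : ℕ) : ℝ) := by positivity
    have h1 : |∫ x in B, integrand r b K u q L' (N + 1) (pr3 (N + 1) x)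
        ∂(stdGaussian (EuclideanSpace ℝ (I0 × Fin (N + 1) × Fin (N + 1))))| ≤
        ∫ x in B, (4 * C0 * ((N + 1 : ℕ) : ℝ) * ‖x‖ + 2 * C0 ^ 2 * ((N + 1 : ℕ) : ℝ) ^ 2)
          ∂(stdGaussian (EuclideanSpace ℝ (I0 × Fin (N + 1) × Fin (N + 1)))) := by
      rw [← Real.norm_eq_abs]
      refine norm_integral_le_of_norm_le (hdom N).integrableOn (Filter.Eventually.of_forall fun x => ?_)
      exact bp_bound r b K u q L' C0 hC0 hP (N + 1) x
    have h2 := bp_cs (I0 × Fin (N + 1) × Fin (N + 1)) ((N + 1 : ℕ) : ℝ) hN (by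
      rw [Fintype.card_prod, Fintype.card_prod, Fintype.card_fin]
      have h3 : Fintype.card I0 = 11 := by
        rw [Fintype.card_sum, Fintype.card_sum, Fintype.card_fin, Fintype.card_fin]
      rw [h3]
      push_cast
      apply le_of_eq
      ring) B hB
    have h3 : ∫ x in B, (4 * C0 * ((N + 1 : ℕ) : ℝ) * ‖x‖ + 2 * C0 ^ 2 * ((N + 1 : ℕ) : ℝ) ^ 2)
          ∂(stdGaussian (EuclideanSpace ℝ (I0 × Fin (N + 1) × Fin (N + 1)))) =
        4 * C0 * ((N + 1 : ℕ) : ℝ) *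
          (∫ x in B, ‖x‖ ∂(stdGaussian (EuclideanSpace ℝ (I0 × Fin (N + 1) × Fin (N + 1))))) +
        2 * C0 ^ 2 * ((N + 1 : ℕ) : ℝ) ^ 2 *
          (stdGaussian (EuclideanSpace ℝ (I0 × Fin (N + 1) × Fin (N + 1)))).real B := by
      rw [integral_add ((bp_norm_int _).const_mul _).integrableOn (integrable_const _).integrableOn,
        setIntegral_const, integral_const_mul, smul_eq_mul, mul_comm (Measure.real _ _)]
    rw [h3] at h1
    obtain ⟨p, hp⟩ : ∃ p, p = (stdGaussian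
      (EuclideanSpace ℝ (I0 × Fin (N + 1) × Fin (N + 1)))).real B := ⟨_, rfl⟩
    have hp0 : 0 ≤ p := by rw [hp]; exact measureReal_nonneg
    rw [← hp] at h1 h2 ⊢
    have h4 : 4 * C0 * ((N + 1 : ℕ) : ℝ) *
        (∫ x in B, ‖x‖ ∂(stdGaussian (EuclideanSpace ℝ (I0 × Fin (N + 1) × Fin (N + 1))))) ≤
        4 * C0 * ((N + 1 : ℕ) : ℝ) * (6 * ((N + 1 : ℕ) : ℝ) * √p) :=
      mul_le_mul_of_nonneg_left h2 (by positivity)
    have h5 : (0:ℝ) ≤ ((N : ℝ) + 1) ^ 2 * C0 ^ 2 * √p := by positivity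
    have h6 : (0:ℝ) ≤ ((N : ℝ) + 1) ^ 2 * C0 * p := by positivity
    push_cast at h1 h4 ⊢
    nlinarith

end bad_part

alias bad_part := bad_part.bad_part

end Pool.Agent.Helper38.FE.U
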