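import Pool.Agent.Helper819.FEU.Defs
import Pool.Agent.Helper819.FEU.PN_basic
import Pool.Agent.Helper38.FE.Cls
import Pool.Agent.Helper38.FE.Words
import Pool.Agent.Helper38.FE.UpDefs

set_option autoImplicit false
set_option linter.unusedVariables false
set_option linter.unusedSectionVars false
set_option linter.dupNamespace false

open MeasureTheory Filter Topology ProbabilityTheory
open scoped InnerProductSpace ENNReal

namespace Pool.Agent.Helper38.FE.U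

-- BEGIN TARGET (everything above is GIVEN, keep it unchanged; prove the theorem below; auxiliary lemmas go inside this namespace, before it)
namespace classical_apply

theorem ca_fK (r : ℕ → ℝ) (b : ℕ → List (Fin 3)) (k K N : ℕ) (hkK : k < K) :
    (fun x => r k • Fc N (b k) x + (∑ j ∈ Finset.range k, r j • Fc N (b j) x) +
      (∑ j ∈ Finset.Ico (k + 1) K, r j • Fc N (b j) x)) = fK r b K N := by
  funext x
  unfold fK
  rw [← Finset.sum_range_add_sum_Ico (fun j => r j • Fc N (b j) x) hkK,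
    Finset.sum_range_succ]
  abel

theorem ca_sum_le (r : ℕ → ℝ) (hr : ∀ j, 0 ≤ r j) (b : ℕ → List (Fin 3)) (N : ℕ)
    (hF : ∀ (b : List (Fin 3)) x, ‖Fc N b x‖ ≤ 2 * (N : ℝ)) (s : Finset ℕ) (x) :
    ‖∑ j ∈ s, r j • Fc N (b j) x‖ ≤ (2 * ∑ j ∈ s, r j) * (N : ℝ) := by
  calc ‖∑ j ∈ s, r j • Fc N (b j) x‖ ≤ ∑ j ∈ s, ‖r j • Fc N (b j) x‖ := norm_sum_le _ _
    _ ≤ ∑ j ∈ s, r j * (2 * (N : ℝ)) := by
        apply Finset.sum_le_sum
        intro j _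
        rw [norm_smul, Real.norm_eq_abs, abs_of_nonneg (hr j)]
        exact mul_le_mul_of_nonneg_left (hF (b j) x) (hr j)
    _ = (2 * ∑ j ∈ s, r j) * (N : ℝ) := by
        rw [← Finset.sum_mul]
        ring

theorem ca_tail (r : ℕ → ℝ) (hr : ∀ j, 0 ≤ r j) (hs : Summable r) (k K : ℕ) :
    ∑ j ∈ Finset.Ico (k + 1) K, r j ≤ ∑' j, r (k + 1 + j) := by
  rw [Finset.sum_Ico_eq_sum_range]
  have hs' : Summable (fun j => r (k + 1 + j)) := by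
    have h1 := (summable_nat_add_iff (k + 1)).mpr hs
    have h2 : (fun j => r (k + 1 + j)) = fun j => r (j + (k + 1)) := by
      funext j
      rw [Nat.add_comm]
    rw [h2]
    exact h1
  exact hs'.sum_le_tsum _ (fun j _ => hr _)

theorem ca_fderiv (r : ℕ → ℝ) (hr : ∀ j, 0 ≤ r j) (b : ℕ → List (Fin 3)) (N k : ℕ) (Cl : ℝ)
    (hcd : ∀ j, ContDiff ℝ 2 (Fc N (b j)))
    (hF : ∀ j x, ‖fderiv ℝ (Fc N (b j)) x‖ ≤ Cl * ((b j).length : ℝ)) (x) :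
    ‖fderiv ℝ (fun x => ∑ j ∈ Finset.range k, r j • Fc N (b j) x) x‖ ≤
      Cl * ∑ j ∈ Finset.range k, r j * ((b j).length : ℝ) := by
  have hd : fderiv ℝ (fun x => ∑ j ∈ Finset.range k, r j • Fc N (b j) x) x =
      ∑ j ∈ Finset.range k, r j • fderiv ℝ (Fc N (b j)) x := by
    have hdj : ∀ j, HasFDerivAt (fun x => r j • Fc N (b j) x) (r j • fderiv ℝ (Fc N (b j)) x) x :=
      fun j => (((hcd j).differentiable (by norm_num) x).hasFDerivAt).const_smul (r j)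
    exact (HasFDerivAt.fun_sum (fun j _ => hdj j)).fderiv
  rw [hd, Finset.mul_sum]
  refine (norm_sum_le _ _).trans (Finset.sum_le_sum (fun j _ => ?_))
  rw [norm_smul, Real.norm_eq_abs, abs_of_nonneg (hr j)]
  calc r j * ‖fderiv ℝ (Fc N (b j)) x‖ ≤ r j * (Cl * ((b j).length : ℝ)) :=
        mul_le_mul_of_nonneg_left (hF j x) (hr j)
    _ = Cl * (r j * ((b j).length : ℝ)) := by ring

theorem ca_ar1 (C Cl Cb Sg R m β : ℝ) (hC : 0 < C) (hb : 0 < Cb) (hR : 0 ≤ R)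
    (h : C * (1 + Cl ^ 2 + Cb) * Sg ^ 2 ≤ R * m) (hm : m ≤ β) : C * (Cl * Sg) ^ 2 ≤ R * β := by
  have h2 : 0 ≤ C * Sg ^ 2 := by positivity
  have h3 : 0 ≤ C * Sg ^ 2 * Cb := by positivity
  have h4 : R * m ≤ R * β := mul_le_mul_of_nonneg_left hm hR
  have h5 : C * (1 + Cl ^ 2 + Cb) * Sg ^ 2 = C * (Cl * Sg) ^ 2 + C * Sg ^ 2 + C * Sg ^ 2 * Cb := by
    ring
  linarith

theorem ca_ar2 (C Cl Cb t m β X : ℝ) (hC : 0 < C) (ht : 0 < t) (hm : 0 ≤ m)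
    (h : C * (1 + Cl ^ 2 + Cb) * t * m ≤ X) (hβ : β ≤ Cb * m) : C * t * β ≤ X := by
  have h1 : C * t * β ≤ C * t * (Cb * m) := mul_le_mul_of_nonneg_left hβ (by positivity)
  have h3 : 0 ≤ C * t * m := by positivity
  have h4 : 0 ≤ C * t * m * Cl ^ 2 := by positivity
  have h5 : C * (1 + Cl ^ 2 + Cb) * t * m = C * t * (Cb * m) + C * t * m + C * t * m * Cl ^ 2 := by
    ring
  linarith

theorem ca_ar3 (C Cl Cb Y R m β : ℝ) (hC : 0 < C) (hb : 0 < Cb) (hY : 0 ≤ Y) (hR : 0 ≤ R)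
    (h : C * (1 + Cl ^ 2 + Cb) * Y ≤ R * m) (hm : m ≤ β) : C * Y ≤ R * β := by
  have h4 : R * m ≤ R * β := mul_le_mul_of_nonneg_left hm hR
  have h2 : 0 ≤ C * Y * Cl ^ 2 := by positivity
  have h3 : 0 ≤ C * Y * Cb := by positivity
  have h5 : C * (1 + Cl ^ 2 + Cb) * Y = C * Y + C * Y * Cl ^ 2 + C * Y * Cb := by ring
  linarith

/-- the classical inequality for the matrix model at finite `N` -/
theorem classical_apply (C4 CD Cb : ℝ) (h4 : 0 < C4) (hD : 0 < CD) (hb : 0 < Cb) :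
    ∃ c₁ : ℝ, 0 < c₁ ∧ ∃ C₂ : ℝ, 0 < C₂ ∧ ∀ (r : ℕ → ℝ) (b : ℕ → List (Fin 3))
      (k m i₀ i₁ : ℕ) (t Sb : ℝ),
      (∀ j, 0 ≤ r j) → Summable r → 2 * ∑' j, r j ≤ Sb → 0 < r k → 1 ≤ m →
      GoodWord C4 CD Cb m (b k) →
      C₂ * (∑ j ∈ Finset.range k, r j * ((b j).length : ℝ)) ^ 2 ≤ r k ^ 2 * m →
      0 < t → t ≤ 1 → 2 * ∑' j, r (k + 1 + j) ≤ √t →
      i₀ ≤ i₁ → C₂ * t * m ≤ 2 ^ i₀ → C₂ * 2 ^ i₁ ≤ r k ^ 2 * m →
      ∀ (K : ℕ), k < K → ∀ (n : ℕ) (u : ℕ → ℝ), u 0 = t → StrictMono u → u n ≤ 1 →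
      ∀ (q : ℕ → Fin 4 → (List (Fin 4) →₀ ℂ)) (L' : ℝ), ∀ᶠ N : ℕ in atTop,
      ∑ j ∈ Finset.range n, (u (j + 1) - u j) / u (j + 1) *
        ((1 / ((N : ℝ) + 1) ^ 2) * ∫ z, integrand r b K (u (j + 1)) (q j) L' (N + 1) z
          ∂(gam3 (Fin 3 × Fin (N + 1) × Fin (N + 1)) (Fin (N + 1) × Fin (N + 1)))) ≤
        4 * Real.log (2 + Sb ^ 2) + Real.log (1 / t) - c₁ * ((i₁ : ℝ) - i₀) := by
  obtain ⟨c₁, hc1, C2', hC2', hmain⟩ := classical_main C4 CD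
  obtain ⟨Cl, hCl, hFc⟩ := Fc_bounds
  refine ⟨c₁, hc1, C2' * (1 + Cl ^ 2 + Cb), by positivity, ?_⟩
  intro r b k m i₀ i₁ t Sb hr hs hSb hrk hm hgood hcond ht0 ht1 htail hi hi0 hi1 K hkK n u hu0
    hmono hun q L'
  filter_upwards [hgood.2] with N hN
  obtain ⟨β, hβ1, hβ2, hhs, hhs4, hhs2⟩ := hN
  have hN1 : 0 < N + 1 := Nat.succ_pos N
  have hm0 : (1:ℝ) ≤ m := by exact_mod_cast hm
  have hβ0 : 0 < β := by linarith
  have hcast : ((N + 1 : ℕ) : ℝ) = (N : ℝ) + 1 := by push_cast; ring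
  have hNpos : 0 < (N : ℝ) + 1 := by positivity
  have hcJ : ((Fintype.card (Fin (N + 1) × Fin (N + 1)) : ℕ) : ℝ) = ((N : ℝ) + 1) ^ 2 := by
    rw [Fintype.card_prod, Fintype.card_fin]
    push_cast
    ring
  have hsq : √((Fintype.card (Fin (N + 1) × Fin (N + 1)) : ℕ) : ℝ) = (N : ℝ) + 1 := by
    rw [hcJ, Real.sqrt_sq hNpos.le]
  have hF : ∀ (b : List (Fin 3)) x, ‖Fc (N + 1) b x‖ ≤ 2 * ((N + 1 : ℕ) : ℝ) :=
    fun b x => (hFc (N + 1) b hN1).1 x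
  have htot : ∀ s : Finset ℕ, ∑ j ∈ s, r j ≤ ∑' j, r j := fun s => hs.sum_le_tsum _ (fun j _ => hr j)
  obtain ⟨K2, hK2⟩ := (hFc (N + 1) (b k) hN1).2.2.2
  have hfd : ∀ j x, ‖fderiv ℝ (Fc (N + 1) (b j)) x‖ ≤ Cl * ((b j).length : ℝ) :=
    fun j x => (hFc (N + 1) (b j) hN1).2.1 x
  have hcd : ∀ j, ContDiff ℝ 2 (Fc (N + 1) (b j)) := fun j => (hFc (N + 1) (b j) hN1).2.2.1
  have hts : 0 ≤ ∑' j, r j := tsum_nonneg hr
  have htt : 0 ≤ ∑' j, r (k + 1 + j) := tsum_nonneg (fun j => hr _)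
  have hSig0 : 0 ≤ ∑ j ∈ Finset.range k, r j * ((b j).length : ℝ) :=
    Finset.sum_nonneg (fun j _ => mul_nonneg (hr j) (Nat.cast_nonneg _))
  have e1 : ∀ x, ‖Fc (N + 1) (b k) x‖ ≤ max (2 * ((N + 1 : ℕ) : ℝ)) (max (Cl * ((b k).length : ℝ))
      (max K2 ((2 * ∑ j ∈ Finset.range k, r j) * ((N + 1 : ℕ) : ℝ)))) :=
    fun x => (hF (b k) x).trans (le_max_left _ _)
  have e2 : ∀ x, ‖fderiv ℝ (Fc (N + 1) (b k)) x‖ ≤ max (2 * ((N + 1 : ℕ) : ℝ))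
      (max (Cl * ((b k).length : ℝ))
      (max K2 ((2 * ∑ j ∈ Finset.range k, r j) * ((N + 1 : ℕ) : ℝ)))) :=
    fun x => (hfd k x).trans ((le_max_left _ _).trans (le_max_right _ _))
  have e3 : ∀ x, ‖fderiv ℝ (fderiv ℝ (Fc (N + 1) (b k))) x‖ ≤ max (2 * ((N + 1 : ℕ) : ℝ))
      (max (Cl * ((b k).length : ℝ))
      (max K2 ((2 * ∑ j ∈ Finset.range k, r j) * ((N + 1 : ℕ) : ℝ)))) :=
    fun x => (hK2 x).trans ((le_max_left _ _).trans ((le_max_right _ _).trans (le_max_right _ _)))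
  have e4 : ContDiff ℝ 1 (fun x => ∑ j ∈ Finset.range k, r j • Fc (N + 1) (b j) x) :=
    ContDiff.sum (fun j _ => ((hcd j).of_le (by norm_num)).const_smul (r j))
  have e5 : ∀ x, ‖∑ j ∈ Finset.range k, r j • Fc (N + 1) (b j) x‖ ≤ max (2 * ((N + 1 : ℕ) : ℝ))
      (max (Cl * ((b k).length : ℝ))
      (max K2 ((2 * ∑ j ∈ Finset.range k, r j) * ((N + 1 : ℕ) : ℝ)))) :=
    fun x => (ca_sum_le r hr b (N + 1) hF _ x).trans
      ((le_max_right _ _).trans ((le_max_right _ _).trans (le_max_right _ _)))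
  have e6 := ca_fderiv r hr b (N + 1) k Cl hcd hfd
  have e7 : Continuous (fun x => ∑ j ∈ Finset.Ico (k + 1) K, r j • Fc (N + 1) (b j) x) :=
    continuous_finsetSum _ (fun j _ => ((hcd j).continuous).const_smul (r j))
  have e8 : ∀ x, ‖∑ j ∈ Finset.Ico (k + 1) K, r j • Fc (N + 1) (b j) x‖ ≤
      (2 * ∑' j, r (k + 1 + j)) * √((Fintype.card (Fin (N + 1) × Fin (N + 1)) : ℕ) : ℝ) := by
    intro x
    refine (ca_sum_le r hr b (N + 1) hF _ x).trans ?_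
    rw [hsq, hcast]
    apply mul_le_mul_of_nonneg_right _ hNpos.le
    have := ca_tail r hr hs k K
    linarith
  have e9 : ∀ x, ‖r k • Fc (N + 1) (b k) x + (∑ j ∈ Finset.range k, r j • Fc (N + 1) (b j) x) +
      (∑ j ∈ Finset.Ico (k + 1) K, r j • Fc (N + 1) (b j) x)‖ ≤
      Sb * √((Fintype.card (Fin (N + 1) × Fin (N + 1)) : ℕ) : ℝ) := by
    intro x
    have h1 := congrFun (ca_fK r b k K (N + 1) hkK) x
    rw [h1]
    unfold fK
    refine (ca_sum_le r hr b (N + 1) hF _ x).trans ?_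
    rw [hsq, hcast]
    apply mul_le_mul_of_nonneg_right _ hNpos.le
    have := htot (Finset.range K)
    linarith
  have e10 : C2' * (Cl * ∑ j ∈ Finset.range k, r j * ((b j).length : ℝ)) ^ 2 ≤ r k ^ 2 * β :=
    ca_ar1 _ _ _ _ _ _ _ hC2' hb (sq_nonneg _) hcond hβ1
  have e11 : (2 * ∑' j, r (k + 1 + j)) ^ 2 ≤ t := by
    have h1 := pow_le_pow_left₀ (by linarith : 0 ≤ 2 * ∑' j, r (k + 1 + j)) htail 2
    rwa [Real.sq_sqrt ht0.le] at h1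
  have e12 : Fintype.card (Fin 3 × Fin (N + 1) × Fin (N + 1)) =
      3 * Fintype.card (Fin (N + 1) × Fin (N + 1)) := by
    rw [Fintype.card_prod, Fintype.card_fin]
  have e13 : 0 < Fintype.card (Fin (N + 1) × Fin (N + 1)) := by
    rw [Fintype.card_prod, Fintype.card_fin]; positivity
  have e14 : C2' * t * β ≤ 2 ^ i₀ := ca_ar2 _ _ _ _ _ _ _ hC2' ht0 (by linarith) hi0 hβ2
  have e15 : C2' * 2 ^ i₁ ≤ r k ^ 2 * β :=
    ca_ar3 _ _ _ _ _ _ _ hC2' hb (pow_nonneg (by norm_num) _) (sq_nonneg _) hi1 hβ1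
  have e16 : ∀ j, ∃ C, ∀ y, ‖PN (N + 1) (q j) L' y‖ ≤ C := by
    intro j
    obtain ⟨C, hC0, hC⟩ := (PN_basic (q j) L').2
    refine ⟨C * ((N + 1 : ℕ) : ℝ), fun y => ?_⟩
    rw [Prod.norm_def]
    exact max_le (hC (N + 1) y).1 (hC (N + 1) y).2
  rw [← hcJ] at hhs hhs4 hhs2
  have hmain' := hmain (Fin 3 × Fin (N + 1) × Fin (N + 1)) (Fin (N + 1) × Fin (N + 1))
    (Fc (N + 1) (b k)) (fun x => ∑ j ∈ Finset.range k, r j • Fc (N + 1) (b j) x)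
    (fun x => ∑ j ∈ Finset.Ico (k + 1) K, r j • Fc (N + 1) (b j) x)
    (max (2 * ((N + 1 : ℕ) : ℝ)) (max (Cl * ((b k).length : ℝ)) (max K2
      ((2 * ∑ j ∈ Finset.range k, r j) * ((N + 1 : ℕ) : ℝ)))))
    (r k) t (Cl * ∑ j ∈ Finset.range k, r j * ((b j).length : ℝ)) (2 * ∑' j, r (k + 1 + j)) Sb β
    (hcd k) e1 e2 e3 e4 e5 e6 e7 e8 (by linarith) e9 hβ0 hhs hhs4 hhs2
    ht0 ht1 hrk (mul_nonneg hCl.le hSig0) e10 (by linarith) e11 e12 e13 i₀ i₁ hi e14 e15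
    n u hu0 hmono hun (fun j => PN (N + 1) (q j) L')
    (fun j => (PN_basic (q j) L').1 (N + 1)) e16
  rw [ca_fK r b k K (N + 1) hkK, hcJ] at hmain'
  have hinv : 0 < 1 / ((N : ℝ) + 1) ^ 2 := by positivity
  have h5 := mul_le_mul_of_nonneg_left hmain' hinv.le
  have h6 : 1 / ((N : ℝ) + 1) ^ 2 * (((N : ℝ) + 1) ^ 2 * (4 * Real.log (2 + Sb ^ 2) +
      Real.log (1 / t) - c₁ * ((i₁ : ℝ) - i₀))) = 4 * Real.log (2 + Sb ^ 2) +
      Real.log (1 / t) - c₁ * ((i₁ : ℝ) - i₀) := by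
    field_simp
  rw [h6, Finset.mul_sum] at h5
  refine le_trans (le_of_eq ?_) h5
  refine Finset.sum_congr rfl (fun j _ => ?_)
  unfold integrand
  ring

end classical_apply

alias classical_apply := classical_apply.classical_apply

end Pool.Agent.Helper38.FE.U
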