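import Pool.Agent.Helper819.FEU.Defs

set_option autoImplicit false
set_option linter.unusedVariables false
set_option linter.unusedSectionVars false
set_option linter.dupNamespace false

open MeasureTheory Filter Topology ProbabilityTheory
open scoped InnerProductSpace ENNReal

namespace Pool.Agent.Helper38.FE.U

-- BEGIN TARGET (everything above is GIVEN, keep it unchanged; prove the theorem below; auxiliary lemmas go inside this namespace, before it)
namespace fatou_riemann

theorem lscAt (g : ℝ → ℝ) (hlsc : LowerSemicontinuous g) (u : ℝ) (hu : 0 < u) :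
    LowerSemicontinuousAt (fun v => g v / v) u := by
  intro y hy
  have h1 : y * u < g u := by
    have hy' : y < g u / u := hy
    rwa [lt_div_iff₀ hu] at hy'
  obtain ⟨z, hz1, hz2⟩ := exists_between h1
  have e1 : ∀ᶠ v in 𝓝 u, z < g v := hlsc u z hz2
  have e2 : ∀ᶠ v in 𝓝 u, y * v < z :=
    (continuous_const.mul continuous_id).continuousAt.eventually_lt continuousAt_const hz1
  have e3 : ∀ᶠ v in 𝓝 u, 0 < v := lt_mem_nhds hu
  filter_upwards [e1, e2, e3] with v h1 h2 h3
  show y < g v / v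
  rw [lt_div_iff₀ h3]
  exact h2.trans h1

/-- the mesh -/
noncomputable def dl (t : ℝ) (n : ℕ) : ℝ := (1 - t) / ((n : ℝ) + 1)

/-- right end point -/
noncomputable def en (t : ℝ) (n : ℕ) (u : ℝ) : ℝ := t + dl t n * (⌈(u - t) / dl t n⌉₊ : ℝ)

theorem dl_pos (t : ℝ) (ht : t < 1) (n : ℕ) : 0 < dl t n := by
  unfold dl
  have : (0 : ℝ) < (n : ℝ) + 1 := by positivity
  exact div_pos (by linarith) this

theorem en_meas (t : ℝ) (n : ℕ) : Measurable (en t n) := by
  unfold en
  have h1 : Measurable (fun u : ℝ => (u - t) / dl t n) := by fun_prop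
  have h2 : Measurable (fun u : ℝ => ⌈(u - t) / dl t n⌉₊) := h1.nat_ceil
  have h3 : Measurable (fun u : ℝ => ((⌈(u - t) / dl t n⌉₊ : ℕ) : ℝ)) :=
    (measurable_from_top (f := fun k : ℕ => (k : ℝ))).comp h2
  exact (h3.const_mul _).const_add _

theorem en_tendsto (t : ℝ) (ht : t < 1) (u : ℝ) (hu : t < u) :
    Tendsto (fun n => en t n u) atTop (𝓝 u) := by
  have hd : Tendsto (dl t) atTop (𝓝 0) := by
    unfold dl
    have := (tendsto_one_div_add_atTop_nhds_zero_nat (𝕜 := ℝ)).const_mul (1 - t)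
    simpa [div_eq_mul_inv] using this
  have h1 : ∀ n, u ≤ en t n u := by
    intro n
    have hp := dl_pos t ht n
    have := Nat.le_ceil ((u - t) / dl t n)
    rw [div_le_iff₀ hp] at this
    unfold en
    linarith [mul_comm (dl t n) (⌈(u - t) / dl t n⌉₊ : ℝ)]
  have h2 : ∀ n, en t n u ≤ u + dl t n := by
    intro n
    have hp := dl_pos t ht n
    have hnn : 0 ≤ (u - t) / dl t n := div_nonneg (by linarith) hp.le
    have h3 := Nat.ceil_lt_add_one hnn
    have h4 : dl t n * (⌈(u - t) / dl t n⌉₊ : ℝ) ≤ dl t n * ((u - t) / dl t n + 1) :=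
      mul_le_mul_of_nonneg_left h3.le hp.le
    have h5 : dl t n * ((u - t) / dl t n + 1) = u - t + dl t n := by
      field_simp
    unfold en
    linarith
  refine tendsto_of_tendsto_of_tendsto_of_le_of_le tendsto_const_nhds ?_ h1 h2
  simpa using (tendsto_const_nhds (x := u)).add hd

theorem piece (g : ℝ → ℝ) (t : ℝ) (ht : 0 < t) (ht1 : t < 1) (hg0 : ∀ u, 0 ≤ g u) (n j : ℕ) :
    ∫⁻ u in Set.Ioc (t + dl t n * j) (t + dl t n * ((j + 1 : ℕ) : ℝ)),
      ENNReal.ofReal (g (en t n u) / en t n u) =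
    ENNReal.ofReal (((t + dl t n * ((j + 1 : ℕ) : ℝ)) - (t + dl t n * j)) /
      (t + dl t n * ((j + 1 : ℕ) : ℝ)) * g (t + dl t n * ((j + 1 : ℕ) : ℝ))) := by
  have hp := dl_pos t ht1 n
  have hen : ∀ u ∈ Set.Ioc (t + dl t n * j) (t + dl t n * ((j + 1 : ℕ) : ℝ)),
      en t n u = t + dl t n * ((j + 1 : ℕ) : ℝ) := by
    intro u hu
    have : ⌈(u - t) / dl t n⌉₊ = j + 1 := by
      rw [Nat.ceil_eq_iff (by omega)]
      constructor
      · rw [lt_div_iff₀ hp]
        have := hu.1
        simp only [Nat.add_sub_cancel]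
        linarith [mul_comm (dl t n) (j : ℝ)]
      · rw [div_le_iff₀ hp]
        have := hu.2
        linarith [mul_comm (dl t n) ((j + 1 : ℕ) : ℝ)]
    unfold en
    rw [this]
  rw [setLIntegral_congr_fun measurableSet_Ioc (g := fun _ => ENNReal.ofReal
    (g (t + dl t n * ((j + 1 : ℕ) : ℝ)) / (t + dl t n * ((j + 1 : ℕ) : ℝ))))
    (by intro u hu; simp only [hen u hu]), setLIntegral_const, Real.volume_Ioc,
    ← ENNReal.ofReal_mul (div_nonneg (hg0 _) (by positivity))]
  congr 1
  ring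

theorem cover (t : ℝ) (ht1 : t < 1) (n : ℕ) :
    Set.Ioc t 1 ⊆ ⋃ j : Fin (n + 1), Set.Ioc (t + dl t n * ((j : ℕ) : ℝ))
      (t + dl t n * (((j : ℕ) + 1 : ℕ) : ℝ)) := by
  intro u hu
  have hp := dl_pos t ht1 n
  have h0 : 0 < (u - t) / dl t n := div_pos (by linarith [hu.1]) hp
  have h1 : (u - t) / dl t n ≤ ((n + 1 : ℕ) : ℝ) := by
    rw [div_le_iff₀ hp]
    have : ((n + 1 : ℕ) : ℝ) * dl t n = 1 - t := by
      unfold dl
      push_cast
      field_simp
    rw [this]
    linarith [hu.2]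
  have h2 : ⌈(u - t) / dl t n⌉₊ ≤ n + 1 := Nat.ceil_le.2 h1
  have h3 : 0 < ⌈(u - t) / dl t n⌉₊ := Nat.ceil_pos.2 h0
  rw [Set.mem_iUnion]
  refine ⟨⟨⌈(u - t) / dl t n⌉₊ - 1, by omega⟩, ?_⟩
  have h4 : ⌈(u - t) / dl t n⌉₊ - 1 + 1 = ⌈(u - t) / dl t n⌉₊ := by omega
  have h5 := (Nat.ceil_eq_iff (a := (u - t) / dl t n) (by omega)).1 rfl
  simp only [h4]
  constructor
  · have := h5.1
    rw [lt_div_iff₀ hp] at this
    linarith [mul_comm (dl t n) ((⌈(u - t) / dl t n⌉₊ - 1 : ℕ) : ℝ)]
  · have := h5.2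
    rw [div_le_iff₀ hp] at this
    linarith [mul_comm (dl t n) ((⌈(u - t) / dl t n⌉₊ : ℕ) : ℝ)]

theorem bound (g : ℝ → ℝ) (B t : ℝ) (ht : 0 < t) (ht1 : t < 1) (hg0 : ∀ u, 0 ≤ g u)
    (hR : ∀ (n : ℕ) (u : ℕ → ℝ), u 0 = t → StrictMono u → u n ≤ 1 →
      ∑ j ∈ Finset.range n, (u (j + 1) - u j) / u (j + 1) * g (u (j + 1)) ≤ B) (n : ℕ) :
    ∫⁻ u in Set.Ioc t 1, ENNReal.ofReal (g (en t n u) / en t n u) ≤ ENNReal.ofReal B := by
  have hp := dl_pos t ht1 n
  calc ∫⁻ u in Set.Ioc t 1, ENNReal.ofReal (g (en t n u) / en t n u) ≤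
      ∫⁻ u in (⋃ j : Fin (n + 1), Set.Ioc (t + dl t n * ((j : ℕ) : ℝ))
        (t + dl t n * (((j : ℕ) + 1 : ℕ) : ℝ))), ENNReal.ofReal (g (en t n u) / en t n u) :=
        lintegral_mono_set (cover t ht1 n)
    _ ≤ ∑' j : Fin (n + 1), ∫⁻ u in (Set.Ioc (t + dl t n * ((j : ℕ) : ℝ))
        (t + dl t n * (((j : ℕ) + 1 : ℕ) : ℝ))), ENNReal.ofReal (g (en t n u) / en t n u) :=
        lintegral_iUnion_le _ _
    _ = ∑ j : Fin (n + 1), ENNReal.ofReal (((t + dl t n * (((j : ℕ) + 1 : ℕ) : ℝ)) -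
      (t + dl t n * (j : ℕ))) / (t + dl t n * (((j : ℕ) + 1 : ℕ) : ℝ)) *
        g (t + dl t n * (((j : ℕ) + 1 : ℕ) : ℝ))) := by
        rw [tsum_fintype]
        exact Finset.sum_congr rfl (fun j _ => piece g t ht ht1 hg0 n j)
    _ = ENNReal.ofReal (∑ j ∈ Finset.range (n + 1), ((t + dl t n * ((j + 1 : ℕ) : ℝ)) -
      (t + dl t n * j)) / (t + dl t n * ((j + 1 : ℕ) : ℝ)) * g (t + dl t n * ((j + 1 : ℕ) : ℝ))) := by
        rw [ENNReal.ofReal_sum_of_nonneg]
        · rw [← Fin.sum_univ_eq_sum_range (fun j => ENNReal.ofReal (((t + dl t n * ((j + 1 : ℕ) : ℝ)) -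
            (t + dl t n * j)) / (t + dl t n * ((j + 1 : ℕ) : ℝ)) * g (t + dl t n * ((j + 1 : ℕ) : ℝ))))]
        · intro j _
          apply mul_nonneg _ (hg0 _)
          apply div_nonneg
          · push_cast
            nlinarith
          · positivity
    _ ≤ ENNReal.ofReal B := by
        apply ENNReal.ofReal_le_ofReal
        apply hR (n + 1) (fun j => t + dl t n * (j : ℝ))
        · simp
        · intro a b hab
          have : (a : ℝ) < b := by exact_mod_cast hab
          show t + dl t n * (a : ℝ) < t + dl t n * (b : ℝ)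
          nlinarith
        · show t + dl t n * ((n + 1 : ℕ) : ℝ) ≤ 1
          have : ((n + 1 : ℕ) : ℝ) * dl t n = 1 - t := by
            unfold dl
            push_cast
            field_simp
          linarith [mul_comm (dl t n) ((n + 1 : ℕ) : ℝ)]

/-- a lower semicontinuous function with all right Riemann sums bounded by `B` has integral at
most `B` -/
theorem fatou_riemann (g : ℝ → ℝ) (B t : ℝ) (ht : 0 < t) (ht1 : t ≤ 1) (hg0 : ∀ u, 0 ≤ g u)
    (hg4 : ∀ u, g u ≤ 4) (hlsc : LowerSemicontinuous g)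
    (hR : ∀ (n : ℕ) (u : ℕ → ℝ), u 0 = t → StrictMono u → u n ≤ 1 →
      ∑ j ∈ Finset.range n, (u (j + 1) - u j) / u (j + 1) * g (u (j + 1)) ≤ B) :
    IntervalIntegrable (fun u => g u / u) volume t 1 ∧ ∫ u in t..1, g u / u ≤ B := by
  have hB : 0 ≤ B := by
    have := hR 0 (fun j => t + j) (by simp) (by intro a b hab; simpa using hab) (by simpa using ht1)
    simpa using this
  rcases ht1.eq_or_lt with h | h
  · subst h
    simp [hB]
  have hgm : Measurable g := hlsc.measurable
  have hm : Measurable (fun u => g u / u) := hgm.div measurable_id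
  have hF : ∫⁻ u in Set.Ioc t 1, ENNReal.ofReal (g u / u) ≤ ENNReal.ofReal B := by
    calc ∫⁻ u in Set.Ioc t 1, ENNReal.ofReal (g u / u) ≤
        ∫⁻ u in Set.Ioc t 1, liminf (fun n => ENNReal.ofReal (g (en t n u) / en t n u)) atTop := by
          apply setLIntegral_mono' measurableSet_Ioc
          intro u hu
          have hu0 : 0 < u := ht.trans hu.1
          have hl : LowerSemicontinuousAt (fun v => ENNReal.ofReal (g v / v)) u :=
            ENNReal.continuous_ofReal.continuousAt.comp_lowerSemicontinuousAt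
              (lscAt g hlsc u hu0) (fun _ _ => ENNReal.ofReal_le_ofReal)
          apply le_of_forall_lt
          intro c hc
          obtain ⟨c', hc1, hc2⟩ := exists_between hc
          refine hc1.trans_le ?_
          refine le_liminf_of_le (by isBoundedDefault) ?_
          have := (en_tendsto t h u hu.1).eventually (hl c' hc2)
          filter_upwards [this] with n hn
          exact le_of_lt hn
      _ ≤ liminf (fun n => ∫⁻ u in Set.Ioc t 1, ENNReal.ofReal (g (en t n u) / en t n u)) atTop := by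
          apply lintegral_liminf_le
          intro n
          exact ENNReal.measurable_ofReal.comp (hm.comp (en_meas t n))
      _ ≤ liminf (fun _ : ℕ => ENNReal.ofReal B) atTop := by
          exact liminf_le_liminf (Eventually.of_forall (fun n => bound g B t ht h hg0 hR n))
            (by isBoundedDefault) (by isBoundedDefault)
      _ = ENNReal.ofReal B := liminf_const _
  have hnn : ∀ᵐ u ∂(volume.restrict (Set.Ioc t 1)), 0 ≤ g u / u := by
    rw [ae_restrict_iff' measurableSet_Ioc]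
    exact Eventually.of_forall (fun u hu => div_nonneg (hg0 u) (ht.trans hu.1).le)
  have hint : IntegrableOn (fun u => g u / u) (Set.Ioc t 1) := by
    refine ⟨hm.aestronglyMeasurable, ?_⟩
    rw [hasFiniteIntegral_iff_ofReal hnn]
    exact hF.trans_lt ENNReal.ofReal_lt_top
  refine ⟨(intervalIntegrable_iff_integrableOn_Ioc_of_le ht1).2 hint, ?_⟩
  rw [intervalIntegral.integral_of_le ht1, integral_eq_lintegral_of_nonneg_ae hnn
    hm.aestronglyMeasurable]
  exact ENNReal.toReal_le_of_le_ofReal hB hF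

end fatou_riemann

alias fatou_riemann := fatou_riemann.fatou_riemann

end Pool.Agent.Helper38.FE.U
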