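import Pool.Agent.Helper819.FEU.Defs

set_option autoImplicit false
set_option linter.unusedVariables false
set_option linter.unusedSectionVars false
set_option linter.dupNamespace false

open MeasureTheory Filter Topology ProbabilityTheory
open scoped InnerProductSpace ENNReal

namespace Pool.Agent.Helper38.FE.U

-- BEGIN TARGET (everything above is GIVEN, keep it unchanged; prove the theorem below; auxiliary lemmas go inside this namespace, before it)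
namespace herm_ineq

/-- passing to the self-adjoint part increases the functional -/
theorem herm_ineq {H : Type} [NormedAddCommGroup H] [InnerProductSpace ℂ H] [CompleteSpace H]
    (M : VonNeumannAlgebra H) (Ω : H) (hM : TracialSpace M Ω) (s a : H →L[ℂ] H) (hs : s ∈ M)
    (ha : a ∈ M) (hsa : IsSelfAdjoint s) :
    2 * (⟪s Ω, a Ω⟫_ℂ).re - ‖a Ω‖ ^ 2 ≤
      2 * (⟪s Ω, ((1 / 2 : ℂ) • (a + star a)) Ω⟫_ℂ).re - ‖((1 / 2 : ℂ) • (a + star a)) Ω‖ ^ 2 := by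
  have hsa' : star s = s := hsa
  have hsta : star a ∈ M := star_mem ha
  have e1 : ⟪s Ω, (star a) Ω⟫_ℂ = ⟪Ω, (s * star a) Ω⟫_ℂ := by
    conv_lhs => rw [← hsa', ContinuousLinearMap.star_eq_adjoint,
      ContinuousLinearMap.adjoint_inner_left]
    rfl
  have e2 : ⟪Ω, (star a * s) Ω⟫_ℂ = ⟪a Ω, s Ω⟫_ℂ := by
    show ⟪Ω, (star a) (s Ω)⟫_ℂ = ⟪a Ω, s Ω⟫_ℂ
    rw [ContinuousLinearMap.star_eq_adjoint, ContinuousLinearMap.adjoint_inner_right]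
  have e3 : (⟪s Ω, (star a) Ω⟫_ℂ).re = (⟪s Ω, a Ω⟫_ℂ).re := by
    rw [e1, hM.trace s hs (star a) hsta, e2]
    exact inner_re_symm (𝕜 := ℂ) _ _
  have f1 : ⟪(star a) Ω, (star a) Ω⟫_ℂ = ⟪Ω, (a * star a) Ω⟫_ℂ := by
    show _ = ⟪Ω, a ((star a) Ω)⟫_ℂ
    rw [ContinuousLinearMap.star_eq_adjoint, ContinuousLinearMap.adjoint_inner_left]
  have f2 : ⟪Ω, (star a * a) Ω⟫_ℂ = ⟪a Ω, a Ω⟫_ℂ := by
    show ⟪Ω, (star a) (a Ω)⟫_ℂ = ⟪a Ω, a Ω⟫_ℂ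
    rw [ContinuousLinearMap.star_eq_adjoint, ContinuousLinearMap.adjoint_inner_right]
  have f3 : ⟪(star a) Ω, (star a) Ω⟫_ℂ = ⟪a Ω, a Ω⟫_ℂ := by
    rw [f1, hM.trace a ha (star a) hsta, f2]
  have f4 : ‖(star a) Ω‖ = ‖a Ω‖ := by
    rw [inner_self_eq_norm_sq_to_K, inner_self_eq_norm_sq_to_K] at f3
    have f5 : ‖(star a) Ω‖ ^ 2 = ‖a Ω‖ ^ 2 := by exact_mod_cast f3
    exact (sq_eq_sq₀ (norm_nonneg _) (norm_nonneg _)).mp f5
  have g1 : ((1 / 2 : ℂ) • (a + star a)) Ω = (1 / 2 : ℂ) • (a Ω + (star a) Ω) := rfl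
  rw [g1]
  have g2 : (⟪s Ω, (1 / 2 : ℂ) • (a Ω + (star a) Ω)⟫_ℂ).re = (⟪s Ω, a Ω⟫_ℂ).re := by
    rw [inner_smul_right, inner_add_right]
    have : ((1 / 2 : ℂ) * (⟪s Ω, a Ω⟫_ℂ + ⟪s Ω, (star a) Ω⟫_ℂ)).re =
        (1/2) * ((⟪s Ω, a Ω⟫_ℂ).re + (⟪s Ω, (star a) Ω⟫_ℂ).re) := by
      simp [Complex.mul_re]
    rw [this, e3]
    ring
  have g3 : ‖(1 / 2 : ℂ) • (a Ω + (star a) Ω)‖ ≤ ‖a Ω‖ := by
    rw [norm_smul]
    have : ‖(1 / 2 : ℂ)‖ = 1 / 2 := by simp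
    rw [this]
    have := norm_add_le (a Ω) ((star a) Ω)
    rw [f4] at this
    linarith
  rw [g2]
  have g4 := pow_le_pow_left₀ (norm_nonneg _) g3 2
  linarith

end herm_ineq

alias herm_ineq := herm_ineq.herm_ineq

end Pool.Agent.Helper38.FE.U
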