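import Pool.Agent.Helper819.FEU.Defs
import Pool.Agent.Helper819.FEU.herm_ineq

set_option autoImplicit false
set_option linter.unusedVariables false
set_option linter.unusedSectionVars false
set_option linter.dupNamespace false

open MeasureTheory Filter Topology ProbabilityTheory
open scoped InnerProductSpace ENNReal

namespace Pool.Agent.Helper38.FE.U

-- BEGIN TARGET (everything above is GIVEN, keep it unchanged; prove the theorem below; auxiliary lemmas go inside this namespace, before it)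
namespace gval_approx

theorem ga_ev {H : Type} [NormedAddCommGroup H] [InnerProductSpace ℂ H] [CompleteSpace H]
    (Ω : H) (Y : Fin 4 → (H →L[ℂ] H)) (q : List (Fin 4) →₀ ℂ) :
    ev Y q Ω = q.sum fun w c => c • wd Y w Ω := by
  unfold ev Finsupp.sum
  rw [_root_.sum_apply]
  rfl

theorem ga_proj {H : Type} [NormedAddCommGroup H] [InnerProductSpace ℂ H] [CompleteSpace H]
    (K : Submodule ℂ H) [K.HasOrthogonalProjection] (v η : H) (hη : η ∈ K) :
    2 * (⟪v, η⟫_ℂ).re - ‖η‖ ^ 2 = ‖K.starProjection v‖ ^ 2 - ‖K.starProjection v - η‖ ^ 2 := by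
  have h1 : ⟪v - K.starProjection v, η⟫_ℂ = 0 :=
    (Submodule.mem_orthogonal' K _).1 (K.sub_starProjection_mem_orthogonal v) η hη
  rw [inner_sub_left, sub_eq_zero] at h1
  rw [h1, @norm_sub_sq ℂ]
  simp only [RCLike.re_to_complex]
  ring

theorem ga_exists {H : Type} [NormedAddCommGroup H] [InnerProductSpace ℂ H] [CompleteSpace H]
    (Ω : H) (Y : Fin 4 → (H →L[ℂ] H)) (v : H) (ε : ℝ) (hε : 0 < ε) :
    ∃ q : List (Fin 4) →₀ ℂ, ‖(L2 Ω Y).starProjection v‖ ^ 2 - ε ≤
      2 * (⟪v, ev Y q Ω⟫_ℂ).re - ‖ev Y q Ω‖ ^ 2 := by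
  have h1 : (L2 Ω Y).starProjection v ∈ L2 Ω Y := (L2 Ω Y).starProjection_apply_mem v
  have h2 : (L2 Ω Y).starProjection v ∈
      closure ((Submodule.span ℂ (Set.range fun w : List (Fin 4) => wd Y w Ω) : Submodule ℂ H) :
        Set H) := by
    rw [← Submodule.topologicalClosure_coe]
    exact h1
  obtain ⟨η, hη, hd⟩ := Metric.mem_closure_iff.1 h2 (√ε) (Real.sqrt_pos.2 hε)
  obtain ⟨q, hq⟩ := (Finsupp.mem_span_range_iff_exists_finsupp).1 hη
  have hηL : η ∈ L2 Ω Y := Submodule.le_topologicalClosure _ hη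
  refine ⟨q, ?_⟩
  have h3 : ev Y q Ω = η := by rw [ga_ev, ← hq]
  rw [h3, ga_proj (L2 Ω Y) v η hηL]
  have h4 : ‖(L2 Ω Y).starProjection v - η‖ ^ 2 ≤ ε := by
    rw [← dist_eq_norm]
    calc dist ((L2 Ω Y).starProjection v) η ^ 2 ≤ (√ε) ^ 2 := by
          gcongr
      _ = ε := Real.sq_sqrt hε.le
  linarith

/-- `gval` is the supremum of `phi` -/
theorem gval_approx {H : Type} [NormedAddCommGroup H] [InnerProductSpace ℂ H] [CompleteSpace H]
    (S : FS I0 H) (M : VonNeumannAlgebra H) (hM : TracialSpace M S.Ω)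
    (hMd : ∀ a : H →L[ℂ] H, a ∈ M ↔ ∀ i, a * S.d i = S.d i * a)
    (xl : H →L[ℂ] H) (hx : IsSelfAdjoint xl) (hxd : ∀ i, xl * S.d i = S.d i * xl)
    (u δ : ℝ) (hδ : 0 < δ) :
    ∃ q : Fin 4 → (List (Fin 4) →₀ ℂ), gval S.Ω (S.tup xl) S.n1 u - δ ≤
      phi S.Ω (fun i => S.n1 i S.Ω) q (pert (S.tup xl) S.n1 u) := by
  choose q hq using fun i : Fin 4 => ga_exists S.Ω (pert (S.tup xl) S.n1 u) (S.n1 i S.Ω)
    (δ / 4) (by linarith)
  refine ⟨q, ?_⟩
  have htup : ∀ (i : Fin 4) (j : I0), Commute (S.tup xl i) (S.d j) := by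
    intro i j
    refine Fin.lastCases ?_ (fun i => ?_) i
    · unfold FS.tup
      rw [Fin.snoc_last]
      exact hxd j
    · unfold FS.tup
      rw [Fin.snoc_castSucc]
      exact S.comm _ _
  have hY : ∀ (i : Fin 4) (j : I0), Commute (pert (S.tup xl) S.n1 u i) (S.d j) := by
    intro i j
    unfold pert
    exact (htup i j).add_left (Commute.smul_left (S.comm _ _) _)
  have hev : ∀ q : List (Fin 4) →₀ ℂ, ev (pert (S.tup xl) S.n1 u) q ∈ M := by
    intro q
    rw [hMd]
    intro j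
    change Commute _ _
    unfold ev Finsupp.sum
    refine Commute.sum_left _ _ _ fun w _ => Commute.smul_left ?_ _
    refine Commute.list_prod_left _ _ fun a ha => ?_
    obtain ⟨i, _, rfl⟩ := List.mem_map.1 ha
    exact hY i j
  have hi : ∀ i : Fin 4,
      ‖(L2 S.Ω (pert (S.tup xl) S.n1 u)).starProjection (S.n1 i S.Ω)‖ ^ 2 - δ / 4 ≤
      2 * (⟪S.n1 i S.Ω, hp (q i) (pert (S.tup xl) S.n1 u) S.Ω⟫_ℂ).re -
        ‖hp (q i) (pert (S.tup xl) S.n1 u) S.Ω‖ ^ 2 := by
    intro i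
    refine (hq i).trans ?_
    exact herm_ineq M S.Ω hM (S.n1 i) _ ((hMd _).2 fun j => S.comm _ _) (hev (q i)) (S.s_sa _)
  unfold gval phi
  have := Finset.sum_le_sum (s := Finset.univ) fun i (_ : i ∈ Finset.univ) => hi i
  rw [Finset.sum_sub_distrib, Finset.sum_const, Finset.card_univ, Fintype.card_fin] at this
  simp only [nsmul_eq_mul] at this
  push_cast at this
  linarith

end gval_approx

alias gval_approx := gval_approx.gval_approx

end Pool.Agent.Helper38.FE.U
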