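import Pool.Agent.Helper819.FEU.Defs
import Pool.Agent.Helper819.FEU.YN_eq
import Pool.Agent.Helper819.FEU.YN_norm
import Pool.Agent.Helper819.FEU.inner_crd
import Pool.Agent.Helper819.FEU.tr_facts

set_option autoImplicit false
set_option linter.unusedVariables false
set_option linter.unusedSectionVars false
set_option linter.dupNamespace false

open MeasureTheory Filter Topology ProbabilityTheory
open scoped InnerProductSpace ENNReal

namespace Pool.Agent.Helper38.FE.U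

-- BEGIN TARGET (everything above is GIVEN, keep it unchanged; prove the theorem below; auxiliary lemmas go inside this namespace, before it)
namespace integrand_good

theorem hp_sa {N : ℕ} (q : List (Fin 4) →₀ ℂ) (Y : Fin 4 → BN N) : IsSelfAdjoint (hp q Y) := by
  unfold hp
  refine IsSelfAdjoint.smul ?_ (IsSelfAdjoint.add_star_self _)
  rw [isSelfAdjoint_iff]
  simp

theorem block_inner {N : ℕ} (F G : Fin 3 × Fin N × Fin N → ℝ) :
    ⟪(WithLp.toLp 2 F : EuclideanSpace ℝ (Fin 3 × Fin N × Fin N)),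
      (WithLp.toLp 2 G : EuclideanSpace ℝ (Fin 3 × Fin N × Fin N))⟫_ℝ =
    ∑ i : Fin 3, ⟪(WithLp.toLp 2 (fun p => F (i, p)) : EuclideanSpace ℝ (Fin N × Fin N)),
      (WithLp.toLp 2 (fun p => G (i, p)) : EuclideanSpace ℝ (Fin N × Fin N))⟫_ℝ := by
  simp only [PiLp.inner_apply]
  rw [Fintype.sum_prod_type]

theorem tr_sub {N : ℕ} (A B : BN N) : tr (A - B) = tr A - tr B := by
  obtain ⟨h1, h2, _, _⟩ := tr_facts N
  have h3 := h1 (A - B) B
  rw [sub_add_cancel] at h3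
  rw [h3]
  ring

theorem tr_sum {N : ℕ} (A : Fin 4 → BN N) : tr (∑ i, A i) = ∑ i, tr (A i) := by
  obtain ⟨h1, h2, _, _⟩ := tr_facts N
  rw [Fin.sum_univ_four, Fin.sum_univ_four, h1, h1, h1]

theorem inner_block {N : ℕ} (hN : 0 < N) (x : EuclideanSpace ℝ (I0 × Fin N × Fin N)) (i : I0)
    (T : BN N) (hT : IsSelfAdjoint T) :
    ⟪(WithLp.toLp 2 (fun p => x (i, p)) : EuclideanSpace ℝ (Fin N × Fin N)), crd T⟫_ℝ =
      (N : ℝ) ^ 2 * (tr (Xm N x i * T)).re := by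
  have h1 : (WithLp.toLp 2 (fun p => x (i, p)) : EuclideanSpace ℝ (Fin N × Fin N)) =
      crd (Xm N x i) := ((Hm_crd N hN).2 _).symm
  rw [h1]
  exact inner_crd N _ _ ((Hm_sa N).1 _) hT

theorem block_eta {N : ℕ} (v : EuclideanSpace ℝ (Fin N × Fin N)) :
    (WithLp.toLp 2 (fun p => v p) : EuclideanSpace ℝ (Fin N × Fin N)) = v := rfl

theorem block_inner2 {N : ℕ} (hN : 0 < N) (x : EuclideanSpace ℝ (I0 × Fin N × Fin N))
    (T : Fin 3 → BN N) (hT : ∀ i, IsSelfAdjoint (T i)) :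
    ⟪(WithLp.toLp 2 (fun p : Fin 3 × Fin N × Fin N =>
      x (Sum.inr (Sum.inl p.1.castSucc), p.2)) : EuclideanSpace ℝ (Fin 3 × Fin N × Fin N)),
      (WithLp.toLp 2 (fun p : Fin 3 × Fin N × Fin N => crd (T p.1) p.2) :
        EuclideanSpace ℝ (Fin 3 × Fin N × Fin N))⟫_ℝ =
      ∑ i : Fin 3, (N : ℝ) ^ 2 * (tr (Xm N x (Sum.inr (Sum.inl i.castSucc)) * T i)).re := by
  rw [block_inner]
  refine Finset.sum_congr rfl fun i _ => ?_
  rw [← inner_block hN x (Sum.inr (Sum.inl i.castSucc)) (T i) (hT i)]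

theorem block_norm2 {N : ℕ} (T : Fin 3 → BN N) (hT : ∀ i, IsSelfAdjoint (T i)) :
    ‖(WithLp.toLp 2 (fun p : Fin 3 × Fin N × Fin N => crd (T p.1) p.2) :
        EuclideanSpace ℝ (Fin 3 × Fin N × Fin N))‖ ^ 2 =
      ∑ i : Fin 3, (N : ℝ) ^ 2 * (tr (T i * T i)).re := by
  rw [← real_inner_self_eq_norm_sq, block_inner]
  refine Finset.sum_congr rfl fun i _ => ?_
  rw [← inner_crd N _ _ (hT i) (hT i)]

theorem norm2 {N : ℕ} (T : BN N) (hT : IsSelfAdjoint T) :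
    ‖crd T‖ ^ 2 = (N : ℝ) ^ 2 * (tr (T * T)).re := by
  rw [← real_inner_self_eq_norm_sq]
  exact inner_crd N _ _ hT hT

/-- the identity for arbitrary self-adjoint matrices -/
theorem abs_id {N : ℕ} (hN : 0 < N) (x : EuclideanSpace ℝ (I0 × Fin N × Fin N))
    (T : Fin 4 → BN N) (hT : ∀ i, IsSelfAdjoint (T i)) :
    2 * (⟪(pr3 N x).2.1, (WithLp.toLp 2 (fun p : Fin 3 × Fin N × Fin N =>
        crd (T p.1.castSucc) p.2) : EuclideanSpace ℝ (Fin 3 × Fin N × Fin N))⟫_ℝ +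
      ⟪(pr3 N x).2.2, crd (T (Fin.last 3))⟫_ℝ) -
      ‖(WithLp.toLp 2 (fun p : Fin 3 × Fin N × Fin N =>
      crd (T p.1.castSucc) p.2) : EuclideanSpace ℝ (Fin 3 × Fin N × Fin N))‖ ^ 2 -
      ‖crd (T (Fin.last 3))‖ ^ 2 =
    (N : ℝ) ^ 2 * (tr (∑ i : Fin 4, ((2 : ℂ) • (Xm N x (Sum.inr (Sum.inl i)) * T i) -
      T i * T i))).re := by
  have p1 : (pr3 N x).2.1 = (WithLp.toLp 2 (fun p : Fin 3 × Fin N × Fin N =>
      x (Sum.inr (Sum.inl p.1.castSucc), p.2)) : EuclideanSpace ℝ (Fin 3 × Fin N × Fin N)) := rfl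
  have p2 : (pr3 N x).2.2 = (WithLp.toLp 2 (fun p : Fin N × Fin N =>
      x (Sum.inr (Sum.inl (Fin.last 3)), p)) : EuclideanSpace ℝ (Fin N × Fin N)) := rfl
  have e5 : (tr (∑ i : Fin 4, ((2 : ℂ) • (Xm N x (Sum.inr (Sum.inl i)) * T i) -
      T i * T i))).re = ∑ i : Fin 4,
      (2 * (tr (Xm N x (Sum.inr (Sum.inl i)) * T i)).re - (tr (T i * T i)).re) := by
    rw [tr_sum, Complex.re_sum]
    refine Finset.sum_congr rfl fun i _ => ?_
    rw [tr_sub, (tr_facts N).2.1, Complex.sub_re]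
    congr 1
    simp
  rw [p1, p2, block_inner2 hN x (fun i => T i.castSucc) (fun i => hT _),
    inner_block hN x _ _ (hT _), block_norm2 (fun i => T i.castSucc) (fun i => hT _),
    norm2 _ (hT _), e5, Fin.sum_univ_castSucc (n := 3)]
  rw [← Finset.mul_sum, ← Finset.mul_sum, Finset.sum_sub_distrib, ← Finset.mul_sum]
  ring

/-- on the good event the integrand is a trace -/
theorem integrand_good (r : ℕ → ℝ) (b : ℕ → List (Fin 3)) (K : ℕ) (u : ℝ) (hu : 0 ≤ u)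
    (hu1 : u ≤ 1) (q : Fin 4 → (List (Fin 4) →₀ ℂ)) (L L' : ℝ) (hL : 0 ≤ L)
    (hL' : 2 * L + 2 * ∑ j ∈ Finset.range K, |r j| ≤ L') (N : ℕ) (hN : 0 < N)
    (x : EuclideanSpace ℝ (I0 × Fin N × Fin N)) (hx : x ∈ good N L) :
    integrand r b K u q L' N (pr3 N x) = (N : ℝ) ^ 2 * (tr (ZN r b K u q N x)).re := by
  have hYeq := YN_eq r b K u N hN x
  obtain ⟨hsa, hbd⟩ := YN_norm r b K u hu hu1 N L L' hL hL' x
  have hPN : PN N q L' (obs (fK r b K N) u (pr3 N x)) =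
      (WithLp.toLp 2 fun p => crd (hp (q p.1.castSucc) (YN r b K u N x)) p.2,
        crd (hp (q (Fin.last 3)) (YN r b K u N x))) := by
    unfold PN
    rw [hYeq, if_pos (hbd hx)]
  unfold integrand
  rw [hPN]
  exact abs_id hN x (fun i => hp (q i) (YN r b K u N x)) (fun i => hp_sa _ _)

end integrand_good

alias integrand_good := integrand_good.integrand_good

end Pool.Agent.Helper38.FE.U
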