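import Pool.Agent.Helper819.FEU.Defs

set_option autoImplicit false
set_option linter.unusedVariables false
set_option linter.unusedSectionVars false
set_option linter.dupNamespace false

open MeasureTheory Filter Topology ProbabilityTheory
open scoped InnerProductSpace ENNReal

namespace Pool.Agent.Helper38.FE.U

-- BEGIN TARGET (everything above is GIVEN, keep it unchanged; prove the theorem below; auxiliary lemmas go inside this namespace, before it)
namespace tau_Z

/-- the trace of the limit expression is `phi` -/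
theorem tau_Z {H : Type} [NormedAddCommGroup H] [InnerProductSpace ℂ H] [CompleteSpace H]
    (S : FS I0 H) (q : Fin 4 → (List (Fin 4) →₀ ℂ)) (Y : Fin 4 → (H →L[ℂ] H)) :
    (tau S.Ω (∑ i : Fin 4, ((2 : ℂ) • (S.n1 i * hp (q i) Y) - hp (q i) Y * hp (q i) Y))).re =
      phi S.Ω (fun i => S.n1 i S.Ω) q Y := by
  have hh : ∀ i, IsSelfAdjoint (hp (q i) Y) := by
    intro i
    rw [isSelfAdjoint_iff]
    unfold hp
    rw [star_smul, star_add, star_star, add_comm]
    congr 1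
    simp
  unfold tau phi
  rw [ContinuousLinearMap.sum_apply, inner_sum, Complex.re_sum]
  refine Finset.sum_congr rfl ?_
  intro i _
  have h1 : ⟪S.Ω, S.n1 i (hp (q i) Y S.Ω)⟫_ℂ = ⟪S.n1 i S.Ω, hp (q i) Y S.Ω⟫_ℂ :=
    ((S.s_sa (Sum.inr (Sum.inl i))).isSymmetric S.Ω (hp (q i) Y S.Ω)).symm
  have h2 : ⟪S.Ω, hp (q i) Y (hp (q i) Y S.Ω)⟫_ℂ = ⟪hp (q i) Y S.Ω, hp (q i) Y S.Ω⟫_ℂ :=
    ((hh i).isSymmetric S.Ω (hp (q i) Y S.Ω)).symm
  have h3 : (((2 : ℂ) • (S.n1 i * hp (q i) Y) - hp (q i) Y * hp (q i) Y) : H →L[ℂ] H) S.Ω =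
      (2 : ℂ) • S.n1 i (hp (q i) Y S.Ω) - hp (q i) Y (hp (q i) Y S.Ω) := rfl
  rw [h3, inner_sub_right, inner_smul_right, h1, h2, inner_self_eq_norm_sq_to_K]
  simp only [Complex.sub_re, Complex.mul_re, Complex.re_ofNat, Complex.im_ofNat, zero_mul, sub_zero]
  congr 1
  norm_cast

end tau_Z

alias tau_Z := tau_Z.tau_Z

end Pool.Agent.Helper38.FE.U
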