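import Pool.Agent.Helper819.FEU.Defs
import Pool.Agent.Helper819.FEU.integrand_good
import Pool.Agent.Helper819.FEU.Rep_ZN
import Pool.Agent.Helper819.FEU.Rep_tendsto
import Pool.Agent.Helper819.FEU.tau_Z
import Pool.Agent.Helper819.FEU.bad_part
import Pool.Agent.Helper819.FEU.good_meas
import Pool.Agent.Helper819.FEU.map_pr3
import Pool.Agent.Helper819.FEU.YN_norm

set_option autoImplicit false
set_option linter.unusedVariables false
set_option linter.unusedSectionVars false
set_option linter.dupNamespace false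

open MeasureTheory Filter Topology ProbabilityTheory
open scoped InnerProductSpace ENNReal

namespace Pool.Agent.Helper38.FE.U

-- BEGIN TARGET (everything above is GIVEN, keep it unchanged; prove the theorem below; auxiliary lemmas go inside this namespace, before it)
namespace lim_N

theorem meas_integrand (r : ℕ → ℝ) (b : ℕ → List (Fin 3)) (K : ℕ) (u : ℝ)
    (q : Fin 4 → (List (Fin 4) →₀ ℂ)) (L' : ℝ) (N : ℕ) (hf : Measurable (fK r b K N)) :
    Measurable (integrand r b K u q L' N) := by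
  have hP : Measurable (PN N q L') := (PN_basic q L').1 N
  have hobs : Measurable (obs (fK r b K N) u) := by
    unfold obs
    refine Measurable.prodMk ?_ ?_
    · fun_prop
    · have h5 : Measurable (fun z : EuclideanSpace ℝ (Fin 3 × Fin N × Fin N) ×
        EuclideanSpace ℝ (Fin 3 × Fin N × Fin N) × EuclideanSpace ℝ (Fin N × Fin N) =>
          √u • z.2.2) := by fun_prop
      exact (hf.comp measurable_fst).add h5
  have h1 : Measurable (fun z => (PN N q L' (obs (fK r b K N) u z)).1) :=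
    measurable_fst.comp (hP.comp hobs)
  have h2 : Measurable (fun z => (PN N q L' (obs (fK r b K N) u z)).2) :=
    measurable_snd.comp (hP.comp hobs)
  have h3 : Measurable (fun z : EuclideanSpace ℝ (Fin 3 × Fin N × Fin N) ×
      EuclideanSpace ℝ (Fin 3 × Fin N × Fin N) × EuclideanSpace ℝ (Fin N × Fin N) => z.2.1) :=
    measurable_fst.comp measurable_snd
  have h4 : Measurable (fun z : EuclideanSpace ℝ (Fin 3 × Fin N × Fin N) ×
      EuclideanSpace ℝ (Fin 3 × Fin N × Fin N) × EuclideanSpace ℝ (Fin N × Fin N) => z.2.2) :=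
    measurable_snd.comp measurable_snd
  unfold integrand
  exact ((((h3.inner h1).add (h4.inner h2)).const_mul 2).sub (h1.norm.pow_const 2)).sub
    (h2.norm.pow_const 2)

/-- the limit `N → ∞` of the normalised classical integrals -/
theorem lim_N {H : Type} [NormedAddCommGroup H] [InnerProductSpace ℂ H] [CompleteSpace H]
    (S : FS I0 H) (r : ℕ → ℝ) (b : ℕ → List (Fin 3)) (K : ℕ) (u : ℝ) (hu : 0 ≤ u) (hu1 : u ≤ 1)
    (q : Fin 4 → (List (Fin 4) →₀ ℂ)) (L L' : ℝ) (hL2 : 2 ≤ L)
    (hL : Tendsto (fun N : ℕ => (stdGaussian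
      (EuclideanSpace ℝ (I0 × Fin (N + 1) × Fin (N + 1)))).real (good (N + 1) L)ᶜ) atTop (𝓝 0))
    (hL' : 2 * L + 2 * ∑ j ∈ Finset.range K, |r j| ≤ L')
    (hf : ∀ N : ℕ, Measurable (fK r b K (N + 1))) :
    Tendsto (fun N : ℕ => (1 / ((N : ℝ) + 1) ^ 2) * ∫ z, integrand r b K u q L' (N + 1) z
      ∂(gam3 (Fin 3 × Fin (N + 1) × Fin (N + 1)) (Fin (N + 1) × Fin (N + 1)))) atTop
      (𝓝 (phi S.Ω (fun i => S.n1 i S.Ω) q (pert (S.tup (xK r b K S.xb)) S.n1 u))) := by
  obtain ⟨hint, C, hC0, hC⟩ := bad_part r b K u q L' hf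
  have hL0 : 0 ≤ L := by linarith
  obtain ⟨hZi, hZt⟩ := Rep_tendsto S _ _ (Rep_ZN S r b K u q) L hL2 hL
  have hZre := (Complex.continuous_re.tendsto _).comp hZt
  rw [tau_Z] at hZre
  have hmain : ∀ N : ℕ, (1 / ((N : ℝ) + 1) ^ 2) * ∫ z, integrand r b K u q L' (N + 1) z
      ∂(gam3 (Fin 3 × Fin (N + 1) × Fin (N + 1)) (Fin (N + 1) × Fin (N + 1))) =
      (∫ x in good (N + 1) L, tr (ZN r b K u q (N + 1) x)
        ∂(stdGaussian (EuclideanSpace ℝ (I0 × Fin (N + 1) × Fin (N + 1))))).re +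
      (1 / ((N : ℝ) + 1) ^ 2) * ∫ x in (good (N + 1) L)ᶜ,
        integrand r b K u q L' (N + 1) (pr3 (N + 1) x)
        ∂(stdGaussian (EuclideanSpace ℝ (I0 × Fin (N + 1) × Fin (N + 1)))) := by
    intro N
    have hM : ((N : ℝ) + 1) ^ 2 ≠ 0 := by positivity
    have hgm : MeasurableSet (good (ι := I0) (N + 1) L) := (good_meas (N + 1) L).1
    rw [← (map_pr3 (N + 1)).2, integral_map (map_pr3 (N + 1)).1.aemeasurable
      (meas_integrand r b K u q L' (N + 1) (hf N)).aestronglyMeasurable,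
      ← integral_add_compl hgm (hint N), mul_add]
    congr 1
    have h1 : ∫ x in good (N + 1) L, integrand r b K u q L' (N + 1) (pr3 (N + 1) x)
        ∂(stdGaussian (EuclideanSpace ℝ (I0 × Fin (N + 1) × Fin (N + 1)))) =
        ∫ x in good (N + 1) L, ((N : ℝ) + 1) ^ 2 * (tr (ZN r b K u q (N + 1) x)).re
        ∂(stdGaussian (EuclideanSpace ℝ (I0 × Fin (N + 1) × Fin (N + 1)))) := by
      refine setIntegral_congr_fun hgm fun x hx => ?_
      have h2 := integrand_good r b K u hu hu1 q L L' hL0 hL' (N + 1) (Nat.succ_pos N) x hx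
      push_cast at h2
      exact h2
    rw [h1, integral_const_mul, ← mul_assoc, one_div_mul_cancel hM, one_mul]
    exact Complex.reCLM.integral_comp_comm (hZi N)
  have hbad : Tendsto (fun N : ℕ => (1 / ((N : ℝ) + 1) ^ 2) * ∫ x in (good (N + 1) L)ᶜ,
        integrand r b K u q L' (N + 1) (pr3 (N + 1) x)
        ∂(stdGaussian (EuclideanSpace ℝ (I0 × Fin (N + 1) × Fin (N + 1))))) atTop (𝓝 0) := by
    have hz : Tendsto (fun N : ℕ => C * √((stdGaussian
        (EuclideanSpace ℝ (I0 × Fin (N + 1) × Fin (N + 1)))).real (good (N + 1) L)ᶜ) +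
        C * (stdGaussian (EuclideanSpace ℝ (I0 × Fin (N + 1) × Fin (N + 1)))).real
          (good (N + 1) L)ᶜ) atTop (𝓝 0) := by
      have h1 := (hL.sqrt.const_mul C).add (hL.const_mul C)
      rw [Real.sqrt_zero, mul_zero, add_zero] at h1
      exact h1
    refine squeeze_zero_norm (fun N => ?_) hz
    have hM : 0 < ((N : ℝ) + 1) ^ 2 := by positivity
    have h2 := hC N (good (N + 1) L)ᶜ (good_meas (N + 1) L).1.compl
    rw [Real.norm_eq_abs, abs_mul, abs_of_pos (one_div_pos.2 hM), one_div, inv_mul_le_iff₀ hM]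
    exact h2
  have hsum := hZre.add hbad
  rw [add_zero] at hsum
  refine hsum.congr fun N => ?_
  exact (hmain N).symm

end lim_N

alias lim_N := lim_N.lim_N

end Pool.Agent.Helper38.FE.U
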