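import Pool.Agent.Helper819.FEU.Defs

set_option autoImplicit false
set_option linter.unusedVariables false
set_option linter.unusedSectionVars false
set_option linter.dupNamespace false

open MeasureTheory Filter Topology ProbabilityTheory
open scoped InnerProductSpace ENNReal

namespace Pool.Agent.Helper38.FE.U

-- BEGIN TARGET (everything above is GIVEN, keep it unchanged; prove the theorem below; auxiliary lemmas go inside this namespace, before it)
namespace phi_cont

theorem word_cont {H : Type} [NormedAddCommGroup H] [InnerProductSpace ℂ H] [CompleteSpace H]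
    (w : List (Fin 4)) : Continuous fun Y : Fin 4 → (H →L[ℂ] H) => (w.map Y).prod := by
  induction w with
  | nil => simpa using continuous_const
  | cons a w ih =>
    simp only [List.map_cons, List.prod_cons]
    exact (continuous_apply a).mul ih

theorem ev_cont {H : Type} [NormedAddCommGroup H] [InnerProductSpace ℂ H] [CompleteSpace H]
    (q : List (Fin 4) →₀ ℂ) : Continuous fun Y : Fin 4 → (H →L[ℂ] H) => ev Y q := by
  unfold ev Finsupp.sum
  refine continuous_finsetSum _ fun w _ => ?_
  have h : Continuous fun Y : Fin 4 → (H →L[ℂ] H) => (q w) • (w.map Y).prod :=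
    (word_cont w).const_smul (q w)
  exact h

theorem hp_cont {H : Type} [NormedAddCommGroup H] [InnerProductSpace ℂ H] [CompleteSpace H]
    (q : List (Fin 4) →₀ ℂ) : Continuous fun Y : Fin 4 → (H →L[ℂ] H) => hp q Y := by
  unfold hp
  have h1 : Continuous fun Y : Fin 4 → (H →L[ℂ] H) => ev Y q := ev_cont q
  have h2 : Continuous fun Y : Fin 4 → (H →L[ℂ] H) => star (ev Y q) := h1.star
  exact (h1.add h2).const_smul (1 / 2 : ℂ)

/-- continuity of `phi` in the last variable and in the level -/
theorem phi_cont {H : Type} [NormedAddCommGroup H] [InnerProductSpace ℂ H] [CompleteSpace H]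
    (S : FS I0 H) (v : Fin 4 → H) (q : Fin 4 → (List (Fin 4) →₀ ℂ)) :
    Continuous fun p : (H →L[ℂ] H) × ℝ => phi S.Ω v q (pert (S.tup p.1) S.n1 p.2) := by
  have hY : Continuous fun p : (H →L[ℂ] H) × ℝ => pert (S.tup p.1) S.n1 p.2 := by
    apply continuous_pi
    intro i
    unfold pert
    have h1 : Continuous fun p : (H →L[ℂ] H) × ℝ => S.tup p.1 i := by
      unfold FS.tup
      refine Fin.lastCases ?_ (fun j => ?_) i
      · simp only [Fin.snoc_last]
        exact continuous_fst
      · simp only [Fin.snoc_castSucc]
        exact continuous_const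
    refine h1.add ?_
    have h2 : Continuous fun p : (H →L[ℂ] H) × ℝ => ((√p.2 : ℝ) : ℂ) :=
      Complex.continuous_ofReal.comp (Real.continuous_sqrt.comp continuous_snd)
    exact h2.smul continuous_const
  have hΩ : ∀ i : Fin 4, Continuous fun Y : Fin 4 → (H →L[ℂ] H) => hp (q i) Y S.Ω := by
    intro i
    exact (ContinuousLinearMap.apply ℂ H S.Ω).continuous.comp (hp_cont (q i))
  have hphi : Continuous fun Y : Fin 4 → (H →L[ℂ] H) => phi S.Ω v q Y := by
    unfold phi
    refine continuous_finsetSum _ fun i _ => ?_
    refine Continuous.sub ?_ ((hΩ i).norm.pow 2)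
    refine continuous_const.mul ?_
    exact Complex.continuous_re.comp (continuous_const.inner (hΩ i))
  exact hphi.comp hY

end phi_cont

alias phi_cont := phi_cont.phi_cont

end Pool.Agent.Helper38.FE.U
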