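import Pool.Agent.Helper819.FEU.Defs

set_option autoImplicit false
set_option linter.unusedVariables false
set_option linter.unusedSectionVars false
set_option linter.dupNamespace false

open MeasureTheory Filter Topology ProbabilityTheory
open scoped InnerProductSpace ENNReal

namespace Pool.Agent.Helper38.FE.U

-- BEGIN TARGET (everything above is GIVEN, keep it unchanged; prove the theorem below; auxiliary lemmas go inside this namespace, before it)
namespace phi_le_gval

theorem pg_proj {H : Type} [NormedAddCommGroup H] [InnerProductSpace ℂ H] (K : Submodule ℂ H)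
    [K.HasOrthogonalProjection] (v η : H) (hη : η ∈ K) :
    2 * (⟪v, η⟫_ℂ).re - ‖η‖ ^ 2 ≤ ‖K.starProjection v‖ ^ 2 := by
  have h1 : K.starProjection η = η := Submodule.starProjection_eq_self_iff.2 hη
  have h2 : ⟪v, η⟫_ℂ = ⟪K.starProjection v, η⟫_ℂ := by
    rw [Submodule.inner_starProjection_left_eq_right, h1]
  have h3 := norm_sub_sq (𝕜 := ℂ) (K.starProjection v) η
  rw [h2]
  have h4 : (0 : ℝ) ≤ ‖K.starProjection v - η‖ ^ 2 := by positivity
  have h5 : RCLike.re ⟪K.starProjection v, η⟫_ℂ = (⟪K.starProjection v, η⟫_ℂ).re := rfl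
  rw [h5] at h3
  linarith

theorem pg_star_wd {H : Type} [NormedAddCommGroup H] [InnerProductSpace ℂ H] [CompleteSpace H]
    {n : ℕ} (Y : Fin n → (H →L[ℂ] H)) (hY : ∀ i, IsSelfAdjoint (Y i)) (w : List (Fin n)) :
    star (w.map Y).prod = wd Y w.reverse := by
  induction w with
  | nil => simp [wd]
  | cons a l ih =>
    rw [List.map_cons, List.prod_cons, star_mul, ih, (hY a).star_eq]
    simp [wd]

theorem pg_mem {H : Type} [NormedAddCommGroup H] [InnerProductSpace ℂ H] [CompleteSpace H]
    {n : ℕ} (Ω : H) (Y : Fin n → (H →L[ℂ] H)) (hY : ∀ i, IsSelfAdjoint (Y i))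
    (q : List (Fin n) →₀ ℂ) : hp q Y Ω ∈ L2 Ω Y := by
  have hw : ∀ w : List (Fin n), wd Y w Ω ∈ L2 Ω Y := fun w =>
    Submodule.le_topologicalClosure _ (Submodule.subset_span ⟨w, rfl⟩)
  have h1 : ev Y q Ω ∈ L2 Ω Y := by
    unfold ev Finsupp.sum
    rw [ContinuousLinearMap.sum_apply]
    refine Submodule.sum_mem _ fun w _ => ?_
    rw [ContinuousLinearMap.smul_apply]
    exact Submodule.smul_mem _ _ (hw w)
  have h2 : (star (ev Y q)) Ω ∈ L2 Ω Y := by
    unfold ev Finsupp.sum
    rw [star_sum, ContinuousLinearMap.sum_apply]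
    refine Submodule.sum_mem _ fun w _ => ?_
    rw [star_smul, pg_star_wd Y hY, ContinuousLinearMap.smul_apply]
    exact Submodule.smul_mem _ _ (hw _)
  unfold hp
  rw [ContinuousLinearMap.smul_apply, ContinuousLinearMap.add_apply]
  exact Submodule.smul_mem _ _ (Submodule.add_mem _ h1 h2)

/-- `phi ≤ gval` -/
theorem phi_le_gval {H : Type} [NormedAddCommGroup H] [InnerProductSpace ℂ H] [CompleteSpace H]
    (S : FS I0 H) (xl : H →L[ℂ] H) (hx : IsSelfAdjoint xl) (q : Fin 4 → (List (Fin 4) →₀ ℂ))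
    (u : ℝ) :
    phi S.Ω (fun i => S.n1 i S.Ω) q (pert (S.tup xl) S.n1 u) ≤ gval S.Ω (S.tup xl) S.n1 u := by
  have hY : ∀ i, IsSelfAdjoint (pert (S.tup xl) S.n1 u i) := by
    intro i
    unfold pert
    refine IsSelfAdjoint.add ?_ ?_
    · refine Fin.lastCases ?_ (fun j => ?_) i
      · simp only [FS.tup, Fin.snoc_last]; exact hx
      · simp only [FS.tup, Fin.snoc_castSucc]; exact S.s_sa _
    · refine IsSelfAdjoint.smul ?_ (S.s_sa _)
      exact Complex.conj_ofReal _
  unfold phi gval
  refine Finset.sum_le_sum fun i _ => ?_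
  exact pg_proj _ _ _ (pg_mem S.Ω _ hY (q i))

end phi_le_gval

alias phi_le_gval := phi_le_gval.phi_le_gval

end Pool.Agent.Helper38.FE.U
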