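import Pool.Agent.Helper819.FEU.Defs
import Pool.Agent.Helper819.FEU.norm_Fb

set_option autoImplicit false
set_option linter.unusedVariables false
set_option linter.unusedSectionVars false
set_option linter.dupNamespace false

open MeasureTheory Filter Topology ProbabilityTheory
open scoped InnerProductSpace ENNReal

namespace Pool.Agent.Helper38.FE.U

-- BEGIN TARGET (everything above is GIVEN, keep it unchanged; prove the theorem below; auxiliary lemmas go inside this namespace, before it)
namespace xK_tendsto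

theorem d_sa {H : Type} [NormedAddCommGroup H] [InnerProductSpace ℂ H] [CompleteSpace H]
    (S : FS I0 H) (i : I0) : star (S.d i) = S.d i := by
  rw [S.d_eq i, star_add, star_star, add_comm]

theorem cay_comm {H : Type} [NormedAddCommGroup H] [InnerProductSpace ℂ H] [CompleteSpace H]
    (S : FS I0 H) (k : Fin 3) (i : I0) : Commute (cay (S.xb k)) (S.d i) := by
  have h0 : Commute (S.xb k) (S.d i) := S.comm (Sum.inl k) i
  have h1 : Commute (al • (1 : H →L[ℂ] H)) (S.d i) := (Commute.one_left (S.d i)).smul_left al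
  have h2 : Commute (S.xb k + al • (1 : H →L[ℂ] H)) (S.d i) := h0.add_left h1
  have h3 : Commute (S.xb k - al • (1 : H →L[ℂ] H)) (S.d i) := h0.sub_left h1
  obtain ⟨u, hu⟩ := (cay_facts (S.xb k) (S.s_sa (Sum.inl k))).1
  have h4 : Commute (Ring.inverse (S.xb k - al • (1 : H →L[ℂ] H))) (S.d i) := by
    rw [← hu, Ring.inverse_unit]
    rw [← hu] at h3
    exact h3.units_inv_left
  unfold cay
  exact h2.mul_left h4

theorem Fb_comm {H : Type} [NormedAddCommGroup H] [InnerProductSpace ℂ H] [CompleteSpace H]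
    (S : FS I0 H) (b : List (Fin 3)) (i : I0) : Commute (Fb b S.xb) (S.d i) := by
  have h1 : Commute (Wd b S.xb) (S.d i) := by
    unfold Wd
    refine Commute.list_prod_left _ _ fun y hy => ?_
    rw [List.mem_map] at hy
    obtain ⟨k, -, rfl⟩ := hy
    exact cay_comm S k i
  have h2 : Commute (star (Wd b S.xb)) (S.d i) := by
    have := h1.star_star
    rwa [d_sa] at this
  unfold Fb
  exact h1.add_left h2

/-- norm convergence of the partial sums -/
theorem xK_tendsto {H : Type} [NormedAddCommGroup H] [InnerProductSpace ℂ H] [CompleteSpace H]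
    (S : FS I0 H) (r : ℕ → ℝ) (b : ℕ → List (Fin 3)) (hr : ∀ j, 0 ≤ r j) (hs : Summable r) :
    Tendsto (fun K => xK r b K S.xb) atTop (𝓝 (∑' j, ((r j : ℝ) : ℂ) • Fb (b j) S.xb)) ∧
    IsSelfAdjoint (∑' j, ((r j : ℝ) : ℂ) • Fb (b j) S.xb) ∧
    ∀ i, (∑' j, ((r j : ℝ) : ℂ) • Fb (b j) S.xb) * S.d i =
      S.d i * ∑' j, ((r j : ℝ) : ℂ) • Fb (b j) S.xb := by
  have hsa : ∀ k : Fin 3, IsSelfAdjoint (S.xb k) := fun k => S.s_sa (Sum.inl k)
  have hsum : Summable fun j => ((r j : ℝ) : ℂ) • Fb (b j) S.xb := by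
    refine Summable.of_norm_bounded (hs.mul_right 2) fun j => ?_
    rw [norm_smul, Complex.norm_real, Real.norm_eq_abs, abs_of_nonneg (hr j)]
    exact mul_le_mul_of_nonneg_left (norm_Fb (b j) S.xb hsa).1 (hr j)
  have hlim : Tendsto (fun K => xK r b K S.xb) atTop
      (𝓝 (∑' j, ((r j : ℝ) : ℂ) • Fb (b j) S.xb)) := hsum.hasSum.tendsto_sum_nat
  refine ⟨hlim, ?_, fun i => ?_⟩
  · have h1 : Tendsto (fun K => star (xK r b K S.xb)) atTop
        (𝓝 (star (∑' j, ((r j : ℝ) : ℂ) • Fb (b j) S.xb))) :=
      (continuous_star.tendsto _).comp hlim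
    have h2 : ∀ K, star (xK r b K S.xb) = xK r b K S.xb := by
      intro K
      unfold xK
      rw [star_sum]
      refine Finset.sum_congr rfl fun j _ => ?_
      rw [star_smul, (norm_Fb (b j) S.xb hsa).2.star_eq, Complex.star_def, Complex.conj_ofReal]
    simp only [h2] at h1
    exact tendsto_nhds_unique h1 hlim
  · have h1 := hlim.mul_const (S.d i)
    have h2 := hlim.const_mul (S.d i)
    have h3 : ∀ K, xK r b K S.xb * S.d i = S.d i * xK r b K S.xb := by
      intro K
      unfold xK
      rw [Finset.sum_mul, Finset.mul_sum]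
      refine Finset.sum_congr rfl fun j _ => ?_
      exact ((Fb_comm S (b j) i).smul_left _)
    simp only [h3] at h1
    exact tendsto_nhds_unique h1 h2

end xK_tendsto

alias xK_tendsto := xK_tendsto.xK_tendsto

end Pool.Agent.Helper38.FE.U
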