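import Pool.Agent.Helper38.FE.Gue
import Pool.Agent.Helper38.FE.Low

set_option autoImplicit false
set_option linter.unusedVariables false
set_option linter.unusedSectionVars false
set_option linter.dupNamespace false

/-! ### Module U: definitions -/

section Udefs

open MeasureTheory Filter Topology ProbabilityTheory
open scoped InnerProductSpace ENNReal

namespace Pool.Agent.Helper38.FE.U

/-- evaluation of a noncommutative polynomial (a finitely supported function on words) -/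
noncomputable def ev {κ : Type} {A : Type*} [Ring A] [Algebra ℂ A] (Y : κ → A)
    (q : List κ →₀ ℂ) : A := q.sum fun w c => c • (w.map Y).prod

/-- self-adjoint part of `q(Y)` -/
noncomputable def hp {κ : Type} {A : Type*} [Ring A] [StarRing A] [Algebra ℂ A] (q : List κ →₀ ℂ)
    (Y : κ → A) : A := (1 / 2 : ℂ) • (ev Y q + star (ev Y q))

/-- `T` is given, for every `N`, by a fixed polynomial in the letters `X_i, u_i, u_i*`, and `a` is
the same polynomial in the letters of the Fock system -/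
def Rep {ι H : Type} [Fintype ι] [NormedAddCommGroup H] [InnerProductSpace ℂ H] [CompleteSpace H]
    (S : FS ι H) (T : ∀ N : ℕ, EuclideanSpace ℝ (ι × Fin N × Fin N) → BN N) (a : H →L[ℂ] H) :
    Prop :=
  ∃ z : List (Lt ι) →₀ ℂ, (∀ N x, T N x = z.sum fun w c => c • evW (Xm N x) w) ∧
    a = z.sum fun w c => c • evW S.s w

/-- the projection of the 11 matrices to `(X, G_b, G_l)` -/
noncomputable def pr3 (N : ℕ) (x : EuclideanSpace ℝ (I0 × Fin N × Fin N)) :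
    EuclideanSpace ℝ (Fin 3 × Fin N × Fin N) × EuclideanSpace ℝ (Fin 3 × Fin N × Fin N) ×
      EuclideanSpace ℝ (Fin N × Fin N) :=
  (WithLp.toLp 2 fun p => x (Sum.inl p.1, p.2),
    WithLp.toLp 2 fun p => x (Sum.inr (Sum.inl p.1.castSucc), p.2),
    WithLp.toLp 2 fun p => x (Sum.inr (Sum.inl (Fin.last 3)), p))

/-- the tuple of four Hermitian matrices with coordinates `y` -/
noncomputable def Yt (N : ℕ)
    (y : EuclideanSpace ℝ (Fin 3 × Fin N × Fin N) × EuclideanSpace ℝ (Fin N × Fin N)) :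
    Fin 4 → BN N := Fin.snoc (α := fun _ => BN N) (Xm N y.1) (Hm N y.2)

open Classical in
/-- the cut-off polynomial test map in coordinates -/
noncomputable def PN (N : ℕ) (q : Fin 4 → (List (Fin 4) →₀ ℂ)) (L' : ℝ)
    (y : EuclideanSpace ℝ (Fin 3 × Fin N × Fin N) × EuclideanSpace ℝ (Fin N × Fin N)) :
    EuclideanSpace ℝ (Fin 3 × Fin N × Fin N) × EuclideanSpace ℝ (Fin N × Fin N) :=
  if ∀ i, ‖Yt N y i‖ ≤ L' then
    (WithLp.toLp 2 fun p => crd (hp (q p.1.castSucc) (Yt N y)) p.2, crd (hp (q (Fin.last 3)) (Yt N y)))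
  else 0

/-- `r_0 F_{b_0} + ⋯ + r_{K-1} F_{b_{K-1}}` in coordinates -/
noncomputable def fK (r : ℕ → ℝ) (b : ℕ → List (Fin 3)) (K N : ℕ)
    (x : EuclideanSpace ℝ (Fin 3 × Fin N × Fin N)) : EuclideanSpace ℝ (Fin N × Fin N) :=
  ∑ j ∈ Finset.range K, r j • Fc N (b j) x

/-- `r_0 F_{b_0} + ⋯ + r_{K-1} F_{b_{K-1}}` -/
noncomputable def xK (r : ℕ → ℝ) (b : ℕ → List (Fin 3)) (K : ℕ) {A : Type*} [Ring A] [StarRing A]
    [Algebra ℂ A] (x : Fin 3 → A) : A :=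
  ∑ j ∈ Finset.range K, ((r j : ℝ) : ℂ) • Fb (b j) x

/-- the perturbed tuple of matrices `(X_0, X_1, X_2, f(X)) + √u (G_0, G_1, G_2, G_3)` -/
noncomputable def YN (r : ℕ → ℝ) (b : ℕ → List (Fin 3)) (K : ℕ) (u : ℝ) (N : ℕ)
    (x : EuclideanSpace ℝ (I0 × Fin N × Fin N)) : Fin 4 → BN N := fun i =>
  (Fin.snoc (α := fun _ => BN N) (fun i : Fin 3 => Xm N x (Sum.inl i))
    (xK r b K fun i : Fin 3 => Xm N x (Sum.inl i)) : Fin 4 → BN N) i +
    ((√u : ℝ) : ℂ) • Xm N x (Sum.inr (Sum.inl i))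

/-- the integrand of the classical inequality -/
noncomputable def integrand (r : ℕ → ℝ) (b : ℕ → List (Fin 3)) (K : ℕ) (u : ℝ)
    (q : Fin 4 → (List (Fin 4) →₀ ℂ)) (L' : ℝ) (N : ℕ)
    (z : EuclideanSpace ℝ (Fin 3 × Fin N × Fin N) × EuclideanSpace ℝ (Fin 3 × Fin N × Fin N) ×
      EuclideanSpace ℝ (Fin N × Fin N)) : ℝ :=
  2 * (⟪z.2.1, (PN N q L' (obs (fK r b K N) u z)).1⟫_ℝ +
      ⟪z.2.2, (PN N q L' (obs (fK r b K N) u z)).2⟫_ℝ) -
    ‖(PN N q L' (obs (fK r b K N) u z)).1‖ ^ 2 - ‖(PN N q L' (obs (fK r b K N) u z)).2‖ ^ 2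

/-- the matrix expression `∑ i, (2 G_i h_i(Y) - h_i(Y)²)` -/
noncomputable def ZN (r : ℕ → ℝ) (b : ℕ → List (Fin 3)) (K : ℕ) (u : ℝ)
    (q : Fin 4 → (List (Fin 4) →₀ ℂ)) (N : ℕ)
    (x : EuclideanSpace ℝ (I0 × Fin N × Fin N)) : BN N :=
  ∑ i : Fin 4, ((2 : ℂ) • (Xm N x (Sum.inr (Sum.inl i)) * hp (q i) (YN r b K u N x)) -
    hp (q i) (YN r b K u N x) * hp (q i) (YN r b K u N x))

/-- `∑ i, (2 Re ⟪v_i, h_i(Y) Ω⟫ - ‖h_i(Y) Ω‖²)` -/
noncomputable def phi {H : Type} [NormedAddCommGroup H] [InnerProductSpace ℂ H] [CompleteSpace H]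
    (Ω : H) (v : Fin 4 → H) (q : Fin 4 → (List (Fin 4) →₀ ℂ)) (Y : Fin 4 → (H →L[ℂ] H)) : ℝ :=
  ∑ i, (2 * (⟪v i, hp (q i) Y Ω⟫_ℂ).re - ‖hp (q i) Y Ω‖ ^ 2)

end Pool.Agent.Helper38.FE.U

end Udefs
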