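import Pool.Agent.Helper819.FEU.Defs

set_option autoImplicit false
set_option linter.unusedVariables false
set_option linter.unusedSectionVars false
set_option linter.dupNamespace false

open MeasureTheory Filter Topology ProbabilityTheory
open scoped InnerProductSpace ENNReal

namespace Pool.Agent.Helper38.FE.U

/-- continuity of the coordinate map `F_b` (from its `C²` regularity) -/
theorem fK_meas (r : ℕ → ℝ) (b : ℕ → List (Fin 3)) (K : ℕ)
    (hF : ∀ (N : ℕ) (b : List (Fin 3)), 0 < N → Continuous (Fc N b)) :
    ∀ N : ℕ, Measurable (fK r b K (N + 1)) := by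
  intro N
  refine Continuous.measurable ?_
  unfold fK
  exact continuous_finset_sum _ fun j _ => (hF _ _ (Nat.succ_pos N)).const_smul (r j)
end Pool.Agent.Helper38.FE.U
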